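import Pool.Agent.Q82.TQ.Real

/-!
# Log canonical divisors with real coefficients on torus quotients
-/

set_option autoImplicit false

namespace Pool.Agent.Q82.TQ

open Pool.Agent.W594.SYZ2 Pool.Agent.W594.SYZ2.TQ Pool.Agent.TH735.AQ Pool.Agent.Y167
open Pool.Agent.TH128.SYZ

section Weight

variable {V : Type*} [NormedAddCommGroup V] [NormedSpace ℂ V] [FiniteDimensional ℂ V]
  {Γ : Subgroup (V ≃ᵃ[ℂ] V)} {H : V → V → ℂ}

/-- A real class with a positive singular metric is nef. -/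
theorem nef_of_weight (hΓ : IsTorusQuotient Γ) (hH : IsHermitian H) {F : V → ℂ}
    (hF : Differentiable ℂ F) {φ : V → ℝ} (hφ : IsLogPsh φ) (hφ0 : φ ≠ 0)
    (hφγ : ∀ γ ∈ Γ, ∀ v, φ (γ v) = Real.exp (Real.pi * (H (γ v) (γ v)).re + 2 * (F (γ v)).re
      - (Real.pi * (H v v).re + 2 * (F v).re)) * φ v) :
    IsNefForm H := by
  have hproper : ProperSpace V := FiniteDimensional.proper ℂ V
  -- the invariant function
  let ρ : V → ℝ := fun v => φ v * Real.exp (-(Real.pi * (H v v).re + 2 * (F v).re))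
  have hρ : ∀ γ ∈ Γ, ∀ v, ρ (γ v) = ρ v := by
    intro γ hγ v
    simp only [ρ]
    rw [hφγ γ hγ, mul_right_comm, ← Real.exp_add, mul_comm]
    congr 2
    ring
  -- it is bounded
  obtain ⟨C, hC⟩ := cobounded (latt Γ) hΓ.span_top
  have hHc : Continuous fun v => (H v v).re := diag_continuous hH
  have hK : IsCompact (Metric.closedBall (0 : V) C) := isCompact_closedBall _ _
  obtain ⟨b1, hb1⟩ := (hφ.usc.upperSemicontinuousOn (Metric.closedBall (0 : V) C)).bddAbove_of_isCompact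
    hK
  have hexpc : Continuous fun v => Real.exp (-(Real.pi * (H v v).re + 2 * (F v).re)) :=
    Real.continuous_exp.comp ((hHc.const_mul Real.pi).add
      ((Complex.continuous_re.comp hF.continuous).const_mul 2)).neg
  obtain ⟨b2, hb2⟩ := (hK.image hexpc).bddAbove
  have hb1' : ∀ v, ‖v‖ ≤ C → φ v ≤ b1 := fun v hv =>
    hb1 ⟨v, by rwa [mem_closedBall_zero_iff], rfl⟩
  have hb2' : ∀ v, ‖v‖ ≤ C → Real.exp (-(Real.pi * (H v v).re + 2 * (F v).re)) ≤ b2 :=
    fun v hv => hb2 ⟨v, by rwa [mem_closedBall_zero_iff], rfl⟩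
  have hbound : ∀ v, ρ v ≤ |b1| * |b2| := by
    intro v
    obtain ⟨c, hc, hcC⟩ := hC v
    have h1 := hρ (AffineEquiv.constVAdd ℂ V c) hc v
    change ρ (c + v) = ρ v at h1
    rw [← h1]
    exact mul_le_mul ((hb1' _ hcC).trans (le_abs_self _)) ((hb2' _ hcC).trans (le_abs_self _))
      (Real.exp_pos _).le (abs_nonneg _)
  set B := |b1| * |b2| with hB
  have hB0 : 0 ≤ B := mul_nonneg (abs_nonneg _) (abs_nonneg _)
  have hφle : ∀ v, φ v ≤ B * Real.exp (Real.pi * (H v v).re + 2 * (F v).re) := by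
    intro v
    have h1 := hbound v
    simp only [ρ] at h1
    rw [Real.exp_neg, ← div_eq_mul_inv, div_le_iff₀ (Real.exp_pos _)] at h1
    exact h1
  -- negative directions
  intro u
  by_contra! hneg
  apply hφ0
  funext x
  rw [Pi.zero_apply]
  let g : V → ℂ := fun y => -2 * F y - 2 * Real.pi * H (y - x) x
  have hg : Differentiable ℂ g := by
    refine (hF.const_mul (-2)).sub (Differentiable.const_mul ?_ _)
    have h1 : (fun y => H (y - x) x) = fun y => LinearMap.toContinuousLinearMap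
        (TQ.hl hH x) (y - x) := rfl
    rw [h1]
    exact (ContinuousLinearMap.differentiable _).comp (differentiable_id.sub_const x)
  have hline : ∀ z : ℂ, φ (x + z • u) * ‖Complex.exp (g (x + z • u))‖ ≤
      B * Real.exp (Real.pi * (H x x).re + Real.pi * (‖z‖ ^ 2 * (H u u).re)) := by
    intro z
    have h1 : (g (x + z • u)).re = -2 * (F (x + z • u)).re - 2 * Real.pi * (z * H u x).re := by
      simp only [g]
      rw [add_sub_cancel_left, hH.smul_left]
      have h2 : (2 * (Real.pi : ℂ) * (z * H u x)).re = 2 * Real.pi * (z * H u x).re := by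
        rw [mul_assoc, mul_assoc]
        rw [show (2 : ℂ) = ((2 : ℝ) : ℂ) by norm_num, Complex.re_ofReal_mul,
          Complex.re_ofReal_mul]
      have h3 : (-2 * F (x + z • u)).re = -2 * (F (x + z • u)).re := by
        rw [show (-2 : ℂ) = ((-2 : ℝ) : ℂ) by norm_num, Complex.re_ofReal_mul]
      rw [Complex.sub_re, h2, h3]
    rw [Complex.norm_exp, h1]
    refine (mul_le_mul_of_nonneg_right (hφle _) (Real.exp_pos _).le).trans ?_
    rw [mul_assoc, ← Real.exp_add, h_line hH]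
    refine mul_le_mul_of_nonneg_left (Real.exp_le_exp.2 (le_of_eq ?_)) hB0
    ring
  have hmean : ∀ R : ℝ, φ x * ‖Complex.exp (g x)‖ ≤
      B * Real.exp (Real.pi * (H x x).re + Real.pi * (R ^ 2 * (H u u).re)) := by
    intro R
    refine (hφ.mean g hg x u R).trans ?_
    have h0 : 0 ≤ B * Real.exp (Real.pi * (H x x).re + Real.pi * (R ^ 2 * (H u u).re)) :=
      mul_nonneg hB0 (Real.exp_pos _).le
    by_cases hint : CircleIntegrable
      (fun z : ℂ => φ (x + z • u) * ‖Complex.exp (g (x + z • u))‖) 0 R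
    · refine Real.circleAverage_mono_on_of_le_circle hint fun z hz => ?_
      have h1 : ‖z‖ ^ 2 = R ^ 2 := by
        rw [mem_sphere_zero_iff_norm] at hz
        rw [hz, sq_abs]
      rw [← h1]
      exact hline z
    · rw [Real.circleAverage.integral_undef hint]
      exact h0
  -- let the radius tend to infinity
  have hlim : Filter.Tendsto
      (fun R : ℝ => B * Real.exp (Real.pi * (H x x).re + Real.pi * (R ^ 2 * (H u u).re)))
      Filter.atTop (nhds 0) := by
    rw [← mul_zero B]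
    refine Filter.Tendsto.const_mul B (Real.tendsto_exp_atBot.comp ?_)
    refine Filter.tendsto_atBot_add_const_left _ _ ?_
    have h1 : (fun R : ℝ => Real.pi * (R ^ 2 * (H u u).re)) =
        fun R : ℝ => (Real.pi * (H u u).re) * R ^ 2 := by
      funext R
      ring
    rw [h1]
    exact (Filter.tendsto_pow_atTop (two_ne_zero)).const_mul_atTop_of_neg
      (mul_neg_of_pos_of_neg Real.pi_pos hneg)
  have h1 : φ x * ‖Complex.exp (g x)‖ ≤ 0 := ge_of_tendsto' hlim hmean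
  have h2 : 0 < ‖Complex.exp (g x)‖ := norm_pos_iff.2 (Complex.exp_ne_zero _)
  refine le_antisymm ?_ (hφ.nonneg x)
  by_contra! h3
  exact absurd (mul_pos h3 h2) (not_lt.2 h1)

end Weight

section Bundles

variable {V : Type*} [NormedAddCommGroup V] [NormedSpace ℂ V] {Γ : Subgroup (V ≃ᵃ[ℂ] V)}
  {κ : Type*} [Fintype κ]

/-- Products of powers of line bundles. -/
def prodB (M : κ → LineBundle Γ) (a : κ → ℕ) : LineBundle Γ where
  e := fun γ v => ∏ k, (M k).e γ v ^ a k
  holo := fun γ => prod_holo Finset.univ (fun k v => (M k).e γ v ^ a k)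
    fun k _ => ((M k).holo γ).pow _
  ne_zero := fun γ v => Finset.prod_ne_zero_iff.2 fun k _ => pow_ne_zero _ ((M k).ne_zero γ v)
  mul := fun γ δ v => by
    rw [← Finset.prod_mul_distrib]
    exact Finset.prod_congr rfl fun k _ => by rw [(M k).mul, mul_pow]
  stab := fun γ v h => Finset.prod_eq_one fun k _ => by rw [(M k).stab γ v h, one_pow]

/-- The potential. -/
noncomputable def potF (t : κ → ℝ) (F : κ → V → ℂ) (v : V) : ℂ := ∑ k, (t k : ℂ) * F k v

theorem potF_re (t : κ → ℝ) (F : κ → V → ℂ) (v : V) :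
    (potF t F v).re = ∑ k, t k * (F k v).re := by
  rw [potF, Complex.re_sum]
  exact Finset.sum_congr rfl fun k _ => Complex.re_ofReal_mul _ _

theorem potF_holo (t : κ → ℝ) {F : κ → V → ℂ} (hF : ∀ k, Differentiable ℂ (F k)) :
    Differentiable ℂ (potF t F) := by
  have h1 : potF t F = fun v => ∑ k, (t k : ℂ) * F k v := rfl
  rw [h1]
  exact Differentiable.fun_sum fun k _ => (hF k).const_mul _

theorem exp_comb (t : κ → ℝ) (G : κ → V → V → ℂ) (F : κ → V → ℂ) (u v : V) :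
    ∏ k, Real.exp (t k * (Real.pi * (G k u u).re + 2 * (F k u).re
      - (Real.pi * (G k v v).re + 2 * (F k v).re))) =
    Real.exp (Real.pi * (comb t G u u).re + 2 * (potF t F u).re
      - (Real.pi * (comb t G v v).re + 2 * (potF t F v).re)) := by
  rw [← Real.exp_sum, comb_re, comb_re, potF_re, potF_re]
  congr 1
  rw [Finset.mul_sum, Finset.mul_sum, Finset.mul_sum, Finset.mul_sum, ← Finset.sum_add_distrib,
    ← Finset.sum_add_distrib, ← Finset.sum_sub_distrib]
  exact Finset.sum_congr rfl fun k _ => by ring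

theorem prodB_chern {M : κ → LineBundle Γ} {G : κ → V → V → ℂ}
    (hc : ∀ k, IsChernForm (M k) (G k)) (a : κ → ℕ) :
    IsChernForm (prodB M a) (comb (fun k => (a k : ℝ)) G) := by
  choose hG F hF hFe using hc
  refine ⟨comb_herm _ hG, potF (fun k => (a k : ℝ)) F, potF_holo _ hF, fun γ v => ?_⟩
  rw [← exp_comb]
  change ‖∏ k, (M k).e γ v ^ a k‖ ^ 2 = _
  rw [norm_prod, ← Finset.prod_pow]
  refine Finset.prod_congr rfl fun k _ => ?_
  rw [norm_pow, ← pow_mul, mul_comm (a k) 2, pow_mul, hFe, ← Real.exp_nat_mul]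

theorem weight_eq {M : κ → LineBundle Γ} {G : κ → V → V → ℂ} {F : κ → V → ℂ}
    (hFe : ∀ k, ∀ (γ : Γ) (v : V), ‖(M k).e γ v‖ ^ 2 =
      Real.exp (Real.pi * (G k ((γ : V ≃ᵃ[ℂ] V) v) ((γ : V ≃ᵃ[ℂ] V) v)).re
        + 2 * (F k ((γ : V ≃ᵃ[ℂ] V) v)).re - (Real.pi * (G k v v).re + 2 * (F k v).re)))
    (t : κ → ℝ) (γ : Γ) (v : V) :
    ∏ k, (‖(M k).e γ v‖ ^ 2) ^ t k = Real.exp (Real.pi * (comb t G ((γ : V ≃ᵃ[ℂ] V) v)
      ((γ : V ≃ᵃ[ℂ] V) v)).re + 2 * (potF t F ((γ : V ≃ᵃ[ℂ] V) v)).re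
      - (Real.pi * (comb t G v v).re + 2 * (potF t F v).re)) := by
  rw [← exp_comb]
  refine Finset.prod_congr rfl fun k _ => ?_
  rw [hFe, ← Real.exp_mul, mul_comm]

end Bundles

section Transport

variable {V W W' : Type*} [NormedAddCommGroup V] [NormedSpace ℂ V] [NormedAddCommGroup W]
  [NormedSpace ℂ W] [NormedAddCommGroup W'] [NormedSpace ℂ W'] [FiniteDimensional ℂ W']
  {Γ : Subgroup (V ≃ᵃ[ℂ] V)}

/-- The conjugate affine transformation. -/
def cj (φ : W' ≃ₗ[ℂ] W) (δ : W' ≃ᵃ[ℂ] W') : W ≃ᵃ[ℂ] W :=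
  (φ.toAffineEquiv.symm.trans δ).trans φ.toAffineEquiv

omit [FiniteDimensional ℂ W'] in
theorem cj_apply (φ : W' ≃ₗ[ℂ] W) (δ : W' ≃ᵃ[ℂ] W') (w : W) : cj φ δ w = φ (δ (φ.symm w)) := rfl

/-- The fibration is determined by its kernel. -/
theorem induces_congr {L : LineBundle Γ} {Δ : Subgroup (W ≃ᵃ[ℂ] W)} {Δ' : Subgroup (W' ≃ᵃ[ℂ] W')}
    {π : V →ₗ[ℂ] W} {π' : V →ₗ[ℂ] W'} (hf : IsFibration Γ Δ π) (hf' : IsFibration Γ Δ' π')
    (hker : ∀ v, π v = 0 ↔ π' v = 0) (hind : Induces L Δ π) : Induces L Δ' π' := by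
  have hk : LinearMap.ker π' = LinearMap.ker π := by
    ext v
    rw [LinearMap.mem_ker, LinearMap.mem_ker, hker]
  let φ : W' ≃ₗ[ℂ] W := (π'.quotKerEquivOfSurjective hf'.surj).symm.trans
    ((Submodule.quotEquivOfEq _ _ hk).trans (π.quotKerEquivOfSurjective hf.surj))
  have hφ : ∀ v, φ (π' v) = π v := by
    intro v
    have h1 : (π'.quotKerEquivOfSurjective hf'.surj).symm (π' v) = Submodule.Quotient.mk v := by
      rw [LinearEquiv.symm_apply_eq]
      rfl
    change (π.quotKerEquivOfSurjective hf.surj) ((Submodule.quotEquivOfEq _ _ hk)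
      ((π'.quotKerEquivOfSurjective hf'.surj).symm (π' v))) = _
    rw [h1]
    rfl
  have hφs : ∀ v, φ.symm (π v) = π' v := fun v => by rw [LinearEquiv.symm_apply_eq, hφ]
  have hmem : ∀ δ ∈ Δ', cj φ δ ∈ Δ := by
    intro δ hδ
    obtain ⟨γ, hγ, h1⟩ := hf'.onto δ hδ
    obtain ⟨ε, hε, h2⟩ := hf.maps γ hγ
    have h3 : cj φ δ = ε := by
      apply AffineEquiv.ext
      intro w
      obtain ⟨v, rfl⟩ := hf.surj w
      rw [cj_apply, hφs, h1, hφ, h2]
    rw [h3]
    exact hε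
  obtain ⟨m, hm, A, HA, ⟨hH, F, hF, hFe⟩, hpos, h, hh, hne, heq⟩ := hind
  have hd : Differentiable ℂ fun w : W' => φ w := by
    have : (fun w : W' => φ w) = LinearMap.toContinuousLinearMap (φ : W' →ₗ[ℂ] W) := rfl
    rw [this]
    exact ContinuousLinearMap.differentiable _
  have hcφ : ∀ (δ : W' ≃ᵃ[ℂ] W') (w : W'), cj φ δ (φ w) = φ (δ w) := by
    intro δ w
    rw [cj_apply, LinearEquiv.symm_apply_apply]
  let A' : LineBundle Δ' :=
    { e := fun δ w => A.e ⟨cj φ δ, hmem _ δ.2⟩ (φ w)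
      holo := fun δ => (A.holo _).comp hd
      ne_zero := fun δ w => A.ne_zero _ _
      mul := fun δ ε w => by
        have h1 : (⟨cj φ ((δ * ε : Δ') : W' ≃ᵃ[ℂ] W'), hmem _ (δ * ε).2⟩ : Δ)
            = ⟨cj φ δ, hmem _ δ.2⟩ * ⟨cj φ ε, hmem _ ε.2⟩ := by
          apply Subtype.ext
          apply AffineEquiv.ext
          intro w
          change φ (δ.1 (ε.1 (φ.symm w))) = φ (δ.1 (φ.symm (φ (ε.1 (φ.symm w)))))
          rw [LinearEquiv.symm_apply_apply]
        rw [h1, A.mul]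
        congr 2
        exact hcφ ε w
      stab := fun δ w hw => by
        apply A.stab
        change cj φ δ (φ w) = φ w
        rw [hcφ, hw] }
  refine ⟨m, hm, A', fun x y => HA (φ x) (φ y), ⟨⟨?_, ?_, ?_⟩, fun w => F (φ w), hF.comp hd, ?_⟩,
    ?_, h, hh, hne, ?_⟩
  · intro u v w
    rw [map_add, hH.add_left]
  · intro a v w
    rw [map_smul, hH.smul_left]
  · intro v w
    exact hH.symm _ _
  · intro δ w
    have h1 := hFe ⟨cj φ δ, hmem _ δ.2⟩ (φ w)
    change ‖A.e ⟨cj φ δ, hmem _ δ.2⟩ (φ w)‖ ^ 2 = _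
    rw [h1]
    change Real.exp (Real.pi * (HA (cj φ δ (φ w)) (cj φ δ (φ w))).re
      + 2 * (F (cj φ δ (φ w))).re - _) = _
    rw [hcφ]
  · intro w hw
    exact hpos _ fun h => hw (φ.map_eq_zero_iff.1 h)
  · intro γ δ hδ v
    have h1 := heq γ ⟨cj φ δ, hmem _ δ.2⟩ (fun v => by
      change cj φ δ (π v) = _
      rw [cj_apply, hφs, hδ, hφ]) v
    rw [h1]
    change _ = A.e ⟨cj φ δ, hmem _ δ.2⟩ (φ (π' v)) * h v
    rw [hφ]

end Transport

end Pool.Agent.Q82.TQ
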