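import Pool.Agent.Q82.TQ.Eff2
import Pool.Agent.Q82.TQ.Real2

/-!
# Effective numerical semiampleness, and rational classes
-/

set_option autoImplicit false

namespace Pool.Agent.Q82.TQ

open Pool.Agent.W594.SYZ2 Pool.Agent.W594.SYZ2.TQ Pool.Agent.TH735.AQ Pool.Agent.TH128.SYZ
open Pool.Agent.Y167 (card_pos)

variable {V : Type*} [NormedAddCommGroup V] [NormedSpace ℂ V] [FiniteDimensional ℂ V]
  {Γ : Subgroup (V ≃ᵃ[ℂ] V)} {L : LineBundle Γ} {H : V → V → ℂ} {F : V → ℂ}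

/-- A flat line bundle `P` such that the character of `L ⊗ P` on the kernel is torsion of bounded
order. -/
theorem exists_flat_root (hΓ : IsTorusQuotient Γ) (hH : IsHermitian H) (hpot : IsPot L H F) :
    ∃ P : LineBundle Γ, IsFlat P ∧ IsPot (tensor L P) H F ∧
      ∀ b ∈ latt Γ, b ∈ ker hH → chi (tensor L P) F b ^ Nat.card (Lin Γ) = 1 := by
  obtain ⟨hF, hFe⟩ := hpot
  have hpot : IsPot L H F := ⟨hF, hFe⟩
  obtain ⟨ℓ, hℓ, hχ⟩ := exists_inv_real hΓ hH hpot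
  set N := Nat.card (Lin Γ) with hN
  have hNpos : 0 < N := card_pos hΓ
  have hN0 : (N : ℝ) ≠ 0 := by positivity
  let ℓ' : V →ₗ[ℝ] ℝ := (-(N : ℝ)⁻¹) • ℓ
  have hℓ' : ∀ γ ∈ Γ, ∀ v, ℓ' (γ.linear v) = ℓ' v := fun γ hγ v => by
    simp only [ℓ', LinearMap.smul_apply]
    rw [hℓ γ hγ]
  let P := flat ℓ' hℓ'
  have hP : IsFlat P := flat_isFlat ℓ' hℓ'
  have hpot' : IsPot (tensor L P) H F := by
    refine ⟨hF, fun γ v => ?_⟩
    change ‖L.e γ v * P.e γ v‖ ^ 2 = _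
    rw [norm_mul, hP.2, mul_one, hFe]
  refine ⟨P, hP, hpot', ?_⟩
  intro b hb hbK
  have h1 : ((tr b hb : Γ) : V ≃ᵃ[ℂ] V) 0 = b := by rw [tr_apply, add_zero]
  have h2 : chi (tensor L P) F b = chi L F b * Complex.exp ((ℓ' b : ℂ) * Complex.I) := by
    rw [chi_eq hb, chi_eq hb, tw, tw, h1]
    have h3 : (tensor L P).e (tr b hb) 0 = L.e (tr b hb) 0 * Complex.exp ((ℓ' b : ℂ) * Complex.I) := by
      change L.e (tr b hb) 0 * Complex.exp ((ℓ' (((tr b hb : Γ) : V ≃ᵃ[ℂ] V) 0) : ℂ) * Complex.I) = _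
      rw [h1]
    rw [h3]
    ring
  rw [h2, mul_pow, ← hχ b hb hbK, ← Complex.exp_nat_mul, ← Complex.exp_add]
  have h4 : (ℓ b : ℂ) * Complex.I + N * ((ℓ' b : ℂ) * Complex.I) = 0 := by
    have h5 : N * ℓ' b = -ℓ b := by
      simp only [ℓ', LinearMap.smul_apply, smul_eq_mul]
      field_simp
    have h6 : (N : ℂ) * (ℓ' b : ℂ) = -(ℓ b : ℂ) := by exact_mod_cast h5
    linear_combination Complex.I * h6
  rw [h4, Complex.exp_zero]

/-- Each nef line bundle is numerically equivalent to one whose power `4 N ^ 5` is globally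
generated. -/
theorem numerical_effective (hΓ : IsTorusQuotient Γ) (hc : IsChernForm L H) (hn : IsNefForm H) :
    ∃ P : LineBundle Γ, IsFlat P ∧
      IsGloballyGenerated ((tensor L P).pow (4 * Nat.card (Lin Γ) ^ 5)) := by
  obtain ⟨hH, F, hF, hFe⟩ := hc
  obtain ⟨P, hP, hpot, hroot⟩ := exists_flat_root hΓ hH (L := L) ⟨hF, hFe⟩
  exact ⟨P, hP, effective_of_root hΓ hH hpot hn hroot⟩

/-- `H` is a rational class of type `(1, 1)` on `X = V / Γ`: a multiple is the Chern form of a line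
bundle. -/
def IsRationalClass (Γ : Subgroup (V ≃ᵃ[ℂ] V)) (H : V → V → ℂ) : Prop :=
  ∃ k : ℕ, 1 ≤ k ∧ ∃ L : LineBundle Γ, IsChernForm L (fun v w => (k : ℂ) * H v w)

/-- An integral nef class is the pullback of an ample class, with bounded denominator, under a
fibration. -/
theorem exists_base (hΓ : IsTorusQuotient Γ) (hc : IsChernForm L H) (hn : IsNefForm H) :
    ∃ (n : ℕ) (Δ : Subgroup ((Fin n → ℂ) ≃ᵃ[ℂ] (Fin n → ℂ))) (π : V →ₗ[ℂ] (Fin n → ℂ))
      (HB : (Fin n → ℂ) → (Fin n → ℂ) → ℂ) (A : LineBundle Δ), IsFibration Γ Δ π ∧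
        IsHermitian HB ∧ IsPositiveForm HB ∧ IsChernForm A (fun x y => ((Nat.card (Lin Γ) ^ 2 : ℕ) : ℂ) * HB x y) ∧
        ∀ v w, H v w = HB (π v) (π w) := by
  obtain ⟨hH, F, hF, hFe⟩ := hc
  obtain ⟨P, hP, hpot, hroot⟩ := exists_flat_root hΓ hH (L := L) ⟨hF, hFe⟩
  let n := Module.finrank ℂ (V ⧸ ker hH)
  let e : (V ⧸ ker hH) ≃ₗ[ℂ] (Fin n → ℂ) := (Module.finBasis ℂ (V ⧸ ker hH)).equivFun
  let π : V →ₗ[ℂ] (Fin n → ℂ) := (e : (V ⧸ ker hH) →ₗ[ℂ] (Fin n → ℂ)) ∘ₗ (ker hH).mkQ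
  have S : Pool.Agent.TH735.AQ.Sit Γ (tensor L P) H F π hH (Nat.card (Lin Γ)) := by
    refine ⟨hΓ, hpot, hn, ?_, ?_, card_pos hΓ, hroot⟩
    · exact e.surjective.comp (ker hH).mkQ_surjective
    · intro v
      change e ((ker hH).mkQ v) = 0 ↔ v ∈ ker hH
      rw [LinearEquiv.map_eq_zero_iff, Submodule.mkQ_apply, Submodule.Quotient.mk_eq_zero]
  have hA := Pool.Agent.TH735.AQ.HA_chern S
  have hA2 : Pool.Agent.TH735.AQ.HA Γ H π (Nat.card (Lin Γ))
      = fun x y => ((Nat.card (Lin Γ) ^ 2 : ℕ) : ℂ) * H (sec π x) (sec π y) := by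
    funext x y
    rw [Pool.Agent.TH735.AQ.HA, Pool.Agent.TH735.AQ.ex, ← pow_two]
  rw [hA2] at hA
  have hsec : ∀ v, v - sec π (π v) ∈ ker hH := fun v => by
    rw [← S.ker_iff, map_sub, sec_spec S.surj, sub_self]
  refine ⟨n, Del Γ π, π, fun x y => H (sec π x) (sec π y), Pool.Agent.TH735.AQ.bun S,
    S.isFibration, ⟨fun u v w => ?_, fun a v w => ?_, fun v w => hH.symm _ _⟩, ?_, hA, ?_⟩
  · rw [map_add, hH.add_left]
  · rw [map_smul, hH.smul_left]
  · intro w hw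
    refine lt_of_le_of_ne (hn _) fun h => hw ?_
    rw [← sec_spec S.surj w, S.ker_iff]
    exact fun u => h_isotropic hH hn _ h.symm u
  · intro v w
    have h1 : H v w = H (sec π (π v)) w := by
      have h2 := hsec v w
      rwa [h_sub_left hH, sub_eq_zero] at h2
    have h3 : H (sec π (π v)) w = H (sec π (π v)) (sec π (π w)) := by
      have h4 := h_ker_right hH (hsec w) (sec π (π v))
      have h5 := h_add_right hH (sec π (π v)) (w - sec π (π w)) (sec π (π w))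
      rw [sub_add_cancel, h4, zero_add] at h5
      exact h5
    rw [h1, h3]

omit [FiniteDimensional ℂ V] in
/-- The Chern form of a power. -/
theorem chern_pow {G : V → V → ℂ} (hc : IsChernForm L G) (m : ℕ) :
    IsChernForm (L.pow m) (fun v w => (m : ℂ) * G v w) := by
  obtain ⟨hH, F, hF, hFe⟩ := hc
  have e1 : ∀ z : ℂ, ((m : ℂ) * z).re = m * z.re := by
    intro z
    have : (m : ℂ) = ((m : ℝ) : ℂ) := by push_cast; rfl
    rw [this, Complex.re_ofReal_mul]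
  refine ⟨⟨?_, ?_, ?_⟩, fun v => m * F v, hF.const_mul _, fun γ v => ?_⟩
  · intro u v w
    rw [hH.add_left, mul_add]
  · intro c v w
    rw [hH.smul_left]
    ring
  · intro v w
    rw [map_mul, ← hH.symm, Complex.conj_natCast]
  · change ‖L.e γ v ^ m‖ ^ 2 = _
    rw [norm_pow, ← pow_mul, mul_comm m 2, pow_mul, hFe, ← Real.exp_nat_mul]
    congr 1
    simp only [e1]
    ring

/-- A rational nef class is the pullback of an ample class, with bounded denominator, under a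
fibration. -/
theorem exists_base_rat (hΓ : IsTorusQuotient Γ) {k : ℕ} (hk : 1 ≤ k)
    (hc : IsChernForm L (fun v w => (k : ℂ) * H v w)) (hn : IsNefForm H) {m : ℕ}
    (hm : Nat.card (Lin Γ) ^ 2 ∣ m) :
    ∃ (n : ℕ) (Δ : Subgroup ((Fin n → ℂ) ≃ᵃ[ℂ] (Fin n → ℂ))) (π : V →ₗ[ℂ] (Fin n → ℂ))
      (HB : (Fin n → ℂ) → (Fin n → ℂ) → ℂ) (A : LineBundle Δ), IsFibration Γ Δ π ∧
        IsHermitian HB ∧ IsPositiveForm HB ∧
        IsChernForm A (fun x y => ((m * k : ℕ) : ℂ) * HB x y) ∧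
        ∀ v w, H v w = HB (π v) (π w) := by
  have hkR : (0 : ℝ) < k := by exact_mod_cast hk
  have hk0 : (k : ℂ) ≠ 0 := by
    have : k ≠ 0 := by omega
    exact_mod_cast this
  have hkc : (k : ℂ) = ((k : ℝ) : ℂ) := by push_cast; rfl
  obtain ⟨n, Δ, π, HB, A, h1, h2, h3, h4, h5⟩ := exists_base hΓ hc (fun v => by
    rw [hkc, Complex.re_ofReal_mul]
    exact mul_nonneg hkR.le (hn v))
  obtain ⟨c, rfl⟩ := hm
  refine ⟨n, Δ, π, fun x y => (k : ℂ)⁻¹ * HB x y, A.pow c, h1, ⟨fun u v w => ?_,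
    fun a v w => ?_, fun v w => ?_⟩, fun w hw => ?_, ?_, fun v w => ?_⟩
  · rw [h2.add_left, mul_add]
  · rw [h2.smul_left]
    ring
  · rw [map_mul, ← h2.symm, map_inv₀, Complex.conj_natCast]
  · have h6 := h3 w hw
    have h7 : ((k : ℂ)⁻¹ * HB w w).re = (k : ℝ)⁻¹ * (HB w w).re := by
      have : (k : ℂ)⁻¹ = (((k : ℝ)⁻¹ : ℝ) : ℂ) := by push_cast; rfl
      rw [this, Complex.re_ofReal_mul]
    rw [h7]
    exact mul_pos (inv_pos.2 hkR) h6
  · have h6 := chern_pow h4 c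
    have h7 : (fun x y => ((Nat.card (Lin Γ) ^ 2 * c * k : ℕ) : ℂ) * ((k : ℂ)⁻¹ * HB x y))
        = fun x y => (c : ℂ) * (((Nat.card (Lin Γ) ^ 2 : ℕ) : ℂ) * HB x y) := by
      funext x y
      push_cast
      field_simp
    rw [h7]
    exact h6
  · change H v w = (k : ℂ)⁻¹ * HB (π v) (π w)
    rw [← h5 v w, inv_mul_cancel_left₀ hk0]

omit [FiniteDimensional ℂ V] in
/-- The fibration is unique. -/
theorem fib_unique {W W' : Type*} [NormedAddCommGroup W] [NormedSpace ℂ W]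
    [NormedAddCommGroup W'] [NormedSpace ℂ W'] {Δ : Subgroup (W ≃ᵃ[ℂ] W)}
    {Δ' : Subgroup (W' ≃ᵃ[ℂ] W')} {π : V →ₗ[ℂ] W} {π' : V →ₗ[ℂ] W'} (hf : IsFibration Γ Δ π)
    (hf' : IsFibration Γ Δ' π') {HB : W → W → ℂ} {HB' : W' → W' → ℂ} (hB : IsHermitian HB)
    (hB' : IsHermitian HB') (hp : IsPositiveForm HB) (hp' : IsPositiveForm HB')
    (h : ∀ v w, H v w = HB (π v) (π w)) (h' : ∀ v w, H v w = HB' (π' v) (π' w)) :
    ∃ φ : W ≃ₗ[ℂ] W', (∀ v, φ (π v) = π' v) ∧ (∀ x y, HB x y = HB' (φ x) (φ y)) ∧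
      ∀ δ : W ≃ᵃ[ℂ] W, δ ∈ Δ ↔ cj φ δ ∈ Δ' := by
  have hk1 : ∀ v, π v = 0 ↔ ∀ w, H v w = 0 := by
    intro v
    constructor
    · intro hv w
      rw [h, hv, h_zero_left hB]
    · intro hv
      by_contra hne
      have h1 := hp _ hne
      rw [← h, hv] at h1
      simp at h1
  have hk2 : ∀ v, π' v = 0 ↔ ∀ w, H v w = 0 := by
    intro v
    constructor
    · intro hv w
      rw [h', hv, h_zero_left hB']
    · intro hv
      by_contra hne
      have h1 := hp' _ hne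
      rw [← h', hv] at h1
      simp at h1
  have hk : LinearMap.ker π = LinearMap.ker π' := by
    ext v
    rw [LinearMap.mem_ker, LinearMap.mem_ker, hk1, hk2]
  let φ : W ≃ₗ[ℂ] W' := (π.quotKerEquivOfSurjective hf.surj).symm.trans
    ((Submodule.quotEquivOfEq _ _ hk).trans (π'.quotKerEquivOfSurjective hf'.surj))
  have hφ : ∀ v, φ (π v) = π' v := by
    intro v
    have h1 : (π.quotKerEquivOfSurjective hf.surj).symm (π v) = Submodule.Quotient.mk v := by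
      rw [LinearEquiv.symm_apply_eq]
      rfl
    change (π'.quotKerEquivOfSurjective hf'.surj) ((Submodule.quotEquivOfEq _ _ hk)
      ((π.quotKerEquivOfSurjective hf.surj).symm (π v))) = _
    rw [h1]
    rfl
  have hφs : ∀ v, φ.symm (π' v) = π v := fun v => by rw [LinearEquiv.symm_apply_eq, hφ]
  refine ⟨φ, hφ, ?_, ?_⟩
  · intro x y
    obtain ⟨v, rfl⟩ := hf.surj x
    obtain ⟨w, rfl⟩ := hf.surj y
    rw [hφ, hφ, ← h, ← h']
  · intro δ
    constructor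
    · intro hδ
      obtain ⟨γ, hγ, h1⟩ := hf.onto δ hδ
      obtain ⟨ε, hε, h2⟩ := hf'.maps γ hγ
      have h3 : cj φ δ = ε := by
        apply AffineEquiv.ext
        intro w
        obtain ⟨v, rfl⟩ := hf'.surj w
        rw [cj_apply, hφs, h1, hφ, h2]
      rw [h3]
      exact hε
    · intro hδ
      obtain ⟨γ, hγ, h1⟩ := hf'.onto _ hδ
      obtain ⟨ε, hε, h2⟩ := hf.maps γ hγ
      have h3 : δ = ε := by
        apply AffineEquiv.ext
        intro w
        obtain ⟨v, rfl⟩ := hf.surj w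
        have h4 := h1 v
        rw [cj_apply, hφs, ← hφ, φ.injective.eq_iff] at h4
        rw [h4, h2]
      rw [h3]
      exact hε

end Pool.Agent.Q82.TQ
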