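import Pool.Agent.Y167.Defs
import Pool.Agent.TH128.SYZ.PsefDefs

/-!
# Log canonical divisors with real coefficients on torus quotients: definitions
-/

set_option autoImplicit false

namespace Pool.Agent.Q82.TQ

open Pool.Agent.W594.SYZ2 Pool.Agent.TH735.AQ Pool.Agent.Y167 Pool.Agent.TH128.SYZ

variable {V W : Type*} [NormedAddCommGroup V] [NormedSpace ℂ V] [NormedAddCommGroup W]
  [NormedSpace ℂ W] {Γ : AffGrp V} {ι : Type*} [Fintype ι]

/-- The class of `K_X + Δ`, a hermitian form on `V`. Here `Δ = ∑ i, r i • div (s i)` is an effective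
divisor with real coefficients, and `HK` is the Chern form of the line bundle `K = O_X(q K_X)`. -/
noncomputable def adjClass (q : ℕ) (HK : V → V → ℂ) (Δ : EffDiv Γ ι) (v w : V) : ℂ :=
  HK v w / q + ∑ i, (Δ.r i : ℂ) * Δ.H i v w

/-- `K_X + Δ` is pseudo-effective, `K = O_X(q K_X)`: the real line bundle
`K ^ (1 / q) ⊗ ∏ i, (L i) ^ (r i)` has a singular hermitian metric whose curvature is a positive
current, given by a weight `φ`, the exponential of a plurisubharmonic function on `V`. -/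
def IsPsefAdj (q : ℕ) (K : LineBundle Γ) (Δ : EffDiv Γ ι) : Prop :=
  ∃ φ : V → ℝ, IsLogPsh φ ∧ φ ≠ 0 ∧ ∀ (γ : Γ) (v : V), φ ((γ : V ≃ᵃ[ℂ] V) v) =
    (‖K.e γ v‖ ^ 2) ^ ((q : ℝ)⁻¹) * (∏ i, (‖(Δ.L i).e γ v‖ ^ 2) ^ Δ.r i) * φ v

/-- The factor of automorphy of `K ^ a ⊗ ∏ i, (L i) ^ (b i)`. -/
def mixE (K : LineBundle Γ) (L : ι → LineBundle Γ) (a : ℕ) (b : ι → ℕ) (γ : Γ) (v : V) : ℂ :=
  K.e γ v ^ a * ∏ i, (L i).e γ v ^ b i

theorem mix_holo (K : LineBundle Γ) (L : ι → LineBundle Γ) (a : ℕ) (b : ι → ℕ) (γ : Γ) :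
    Differentiable ℂ (mixE K L a b γ) := by
  have h : ∀ s : Finset ι, Differentiable ℂ fun v => ∏ i ∈ s, (L i).e γ v ^ b i := by
    classical
    intro s
    induction s using Finset.induction_on with
    | empty => simp
    | insert i s hi ih =>
      simp only [Finset.prod_insert hi]
      exact (((L i).holo γ).pow _).mul ih
  exact ((K.holo γ).pow a).mul (h _)

theorem mix_ne (K : LineBundle Γ) (L : ι → LineBundle Γ) (a : ℕ) (b : ι → ℕ) (γ : Γ) (v : V) :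
    mixE K L a b γ v ≠ 0 :=
  mul_ne_zero (pow_ne_zero _ (K.ne_zero γ v))
    (Finset.prod_ne_zero_iff.2 fun i _ => pow_ne_zero _ ((L i).ne_zero γ v))

theorem mix_mul (K : LineBundle Γ) (L : ι → LineBundle Γ) (a : ℕ) (b : ι → ℕ) (γ δ : Γ) (v : V) :
    mixE K L a b (γ * δ) v = mixE K L a b γ ((δ : V ≃ᵃ[ℂ] V) v) * mixE K L a b δ v := by
  have h : ∏ i, (L i).e (γ * δ) v ^ b i =
      (∏ i, (L i).e γ ((δ : V ≃ᵃ[ℂ] V) v) ^ b i) * ∏ i, (L i).e δ v ^ b i := by
    rw [← Finset.prod_mul_distrib]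
    exact Finset.prod_congr rfl fun i _ => by rw [(L i).mul, mul_pow]
  rw [mixE, mixE, mixE, K.mul, mul_pow, h, mul_mul_mul_comm]

theorem mix_stab (K : LineBundle Γ) (L : ι → LineBundle Γ) (a : ℕ) (b : ι → ℕ) (γ : Γ) (v : V)
    (h : (γ : V ≃ᵃ[ℂ] V) v = v) : mixE K L a b γ v = 1 := by
  rw [mixE, K.stab γ v h, one_pow, one_mul]
  exact Finset.prod_eq_one fun i _ => by rw [(L i).stab γ v h, one_pow]

/-- The line bundle `K ^ a ⊗ ∏ i, (L i) ^ (b i)`. -/
def mix (K : LineBundle Γ) (L : ι → LineBundle Γ) (a : ℕ) (b : ι → ℕ) : LineBundle Γ where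
  e := mixE K L a b
  holo := mix_holo K L a b
  ne_zero := mix_ne K L a b
  mul := mix_mul K L a b
  stab := mix_stab K L a b

/-- The real divisor `K_X + Δ`, `K = O_X(q K_X)`, is the pullback of an ample real divisor by the
fibration `f : V / Γ → W / B` given by the linear map `π`:
`K_X + Δ = ∑ j, x j • N j` with finitely many real numbers `x j > 0` and line bundles
`N j = K ^ (a j) ⊗ ∏ i, (L i) ^ (b j i)` such that some power of each `N j` is the pullback of an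
ample line bundle on `W / B`. In particular `K_X + Δ` is semiample. -/
def IsSemiampleAdj (q : ℕ) (K : LineBundle Γ) (Δ : EffDiv Γ ι) (B : Subgroup (W ≃ᵃ[ℂ] W))
    (π : V →ₗ[ℂ] W) : Prop :=
  ∃ (J : Type) (_ : Fintype J) (x : J → ℝ) (a : J → ℕ) (b : J → ι → ℕ), (∀ j, 0 < x j) ∧
    ∑ j, x j * a j = (q : ℝ)⁻¹ ∧ (∀ i, ∑ j, x j * b j i = Δ.r i) ∧
      ∀ j, Induces (mix K Δ.L (a j) (b j)) B π

end Pool.Agent.Q82.TQ
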