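import Pool.Agent.Q82.TQ.Real2
import Pool.Agent.Q82.TQ.AdjDefs

/-!
# Log canonical divisors with real coefficients on torus quotients
-/

set_option autoImplicit false

namespace Pool.Agent.Q82.TQ

open Pool.Agent.W594.SYZ2 Pool.Agent.W594.SYZ2.TQ Pool.Agent.TH735.AQ Pool.Agent.Y167
open Pool.Agent.TH128.SYZ

variable {V : Type*} [NormedAddCommGroup V] [NormedSpace ℂ V] [FiniteDimensional ℂ V]
  {Γ : AffGrp V} {ι : Type} [Fintype ι]

omit [FiniteDimensional ℂ V] in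
theorem lb_ext {L M : LineBundle Γ} (h : L.e = M.e) : L = M := by
  cases L
  cases M
  simp only at h
  subst h
  rfl

/-- The line bundles. -/
def Mo (K : LineBundle Γ) (Δ : EffDiv Γ ι) : Option ι → LineBundle Γ := fun k => k.elim K Δ.L

/-- Their Chern forms. -/
def Go (HK : V → V → ℂ) (Δ : EffDiv Γ ι) : Option ι → V → V → ℂ := fun k => k.elim HK Δ.H

/-- The coefficients. -/
noncomputable def tco (q : ℕ) (Δ : EffDiv Γ ι) : Option ι → ℝ := fun k => k.elim ((q : ℝ)⁻¹) Δ.r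

omit [FiniteDimensional ℂ V] in
theorem comb_eq (q : ℕ) (HK : V → V → ℂ) (Δ : EffDiv Γ ι) :
    comb (tco q Δ) (Go HK Δ) = adjClass q HK Δ := by
  funext v w
  rw [comb, Fintype.sum_option]
  simp only [tco, Go, Option.elim, adjClass]
  congr 1
  push_cast
  rw [div_eq_inv_mul]

omit [FiniteDimensional ℂ V] in
theorem mix_eq (K : LineBundle Γ) (Δ : EffDiv Γ ι) (a : Option ι → ℕ) :
    prodB (Mo K Δ) a = mix K Δ.L (a none) (fun i => a (some i)) := by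
  apply lb_ext
  funext γ v
  change ∏ k, (Mo K Δ k).e γ v ^ a k = _
  rw [Fintype.prod_option]
  rfl

omit [FiniteDimensional ℂ V] in
theorem chern_o {K : LineBundle Γ} {HK : V → V → ℂ} (hKc : IsChernForm K HK) (Δ : EffDiv Γ ι) :
    ∀ k, IsChernForm (Mo K Δ k) (Go HK Δ k) := by
  rintro (_ | i)
  · exact hKc
  · exact Δ.chern i

/-- Pseudo-effective implies nef. -/
theorem adj_nef (hΓ : IsTorusQuotient Γ) {q : ℕ} {K : LineBundle Γ} {HK : V → V → ℂ}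
    (hKc : IsChernForm K HK) (Δ : EffDiv Γ ι) (hp : IsPsefAdj q K Δ) :
    IsNefForm (adjClass q HK Δ) := by
  obtain ⟨φ, hφ, hφ0, hφγ⟩ := hp
  have hc := chern_o hKc Δ
  choose hG F hF hFe using hc
  rw [← comb_eq]
  refine nef_of_weight hΓ (comb_herm _ hG) (potF_holo (tco q Δ) hF) hφ hφ0 ?_
  intro γ hγ v
  rw [hφγ ⟨γ, hγ⟩ v]
  have h1 := weight_eq hFe (tco q Δ) ⟨γ, hγ⟩ v
  rw [← h1, Fintype.prod_option]
  rfl

omit [FiniteDimensional ℂ V] in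
/-- The line bundles `K ^ a ⊗ ∏ (L i) ^ (b i)` are log canonical. -/
theorem mix_log {q : ℕ} {ρ : V → ℂ} {K : LineBundle Γ}
    (hK : IsLogPluricanonical K q ρ (fun _ => 1)) (Δ : EffDiv Γ ι) (a : ℕ) (b : ι → ℕ) :
    IsLogPluricanonical (mix K Δ.L a b) (q * a) ρ (fun v => ∏ i, Δ.s i v ^ b i) := by
  intro γ v
  have h1 := hK γ v
  simp only [one_mul, mul_one] at h1
  have h2 : ∏ i, Δ.s i ((γ : V ≃ᵃ[ℂ] V) v) ^ b i
      = (∏ i, (Δ.L i).e γ v ^ b i) * ∏ i, Δ.s i v ^ b i := by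
    rw [← Finset.prod_mul_distrib]
    exact Finset.prod_congr rfl fun i _ => by rw [(Δ.sect i).eq, mul_pow]
  change (∏ i, Δ.s i ((γ : V ≃ᵃ[ℂ] V) v) ^ b i) * ρ v ^ (q * a)
    = (K.e γ v ^ a * ∏ i, (Δ.L i).e γ v ^ b i) * LinearMap.det _ ^ (q * a) * _ * _
  rw [h2, pow_mul, h1, mul_pow, mul_pow, ← pow_mul, ← pow_mul]
  ring

/-- On vectors fixed by `NK` all forms vanish. -/
theorem forms_zero (hΓ : IsTorusQuotient Γ) {q : ℕ} (hq : 1 ≤ q) {ρ : V → ℂ}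
    (hρ : IsRamification Γ ρ) {K : LineBundle Γ}
    (hK : IsLogPluricanonical K q ρ (fun _ => 1)) {HK : V → V → ℂ} (hKc : IsChernForm K HK)
    (Δ : EffDiv Γ ι) (hG : ∀ k, IsHermitian (Go HK Δ k))
    (hinv : ∀ k, ∀ γ ∈ Γ, ∀ v w, Go HK Δ k (γ.linear v) (γ.linear w) = Go HK Δ k v w) :
    ∀ x ∈ KN Γ (ker (comb_herm (tco q Δ) hG)), ∀ k, tco q Δ k ≠ 0 → ∀ w, Go HK Δ k x w = 0 := by
  intro x hx
  have hKinv : ∀ γ ∈ Γ, ∀ v ∈ ker (comb_herm (tco q Δ) hG),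
      γ.linear v ∈ ker (comb_herm (tco q Δ) hG) := by
    intro γ hγ v hv w
    have h1 := comb_inv (tco q Δ) hinv γ hγ v (γ.linear.symm w)
    rw [LinearEquiv.apply_symm_apply] at h1
    rw [h1]
    exact hv _
  have hm := mirror_zero hΓ hKc hρ hq hK (mirrorFixed hKinv hx)
  have hx0 : ∀ w, comb (tco q Δ) (Go HK Δ) x w = 0 := hx.1
  have hnef : ∀ i, IsNefForm (Δ.H i) := fun i =>
    nef_of_section hΓ (Δ.chern i) (Δ.sect i) (Δ.ne_zero i)
  have h1 : ∑ i, Δ.r i * (Δ.H i x x).re = 0 := by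
    have h2 := congrArg Complex.re (hx0 x)
    rw [comb_re, Fintype.sum_option, Complex.zero_re] at h2
    change (q : ℝ)⁻¹ * (HK x x).re + ∑ i, Δ.r i * (Δ.H i x x).re = 0 at h2
    rwa [hm, mul_zero, zero_add] at h2
  have h2 : ∀ i, Δ.r i * (Δ.H i x x).re = 0 := fun i =>
    (Finset.sum_eq_zero_iff_of_nonneg fun i _ => mul_nonneg (Δ.nonneg i) (hnef i x)).1 h1 i
      (Finset.mem_univ i)
  have h3 : ∀ i, Δ.r i ≠ 0 → ∀ w, Δ.H i x w = 0 := by
    intro i hi w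
    exact h_isotropic (hG (some i)) (hnef i) x ((mul_eq_zero.1 (h2 i)).resolve_left hi) w
  rintro (_ | i) hk w
  · have h4 := hx0 w
    rw [comb, Fintype.sum_option] at h4
    have h5 : ∑ i, ((tco q Δ (some i) : ℝ) : ℂ) * Go HK Δ (some i) x w = 0 := by
      refine Finset.sum_eq_zero fun i _ => ?_
      change (Δ.r i : ℂ) * Δ.H i x w = 0
      by_cases hi : Δ.r i = 0
      · rw [hi, Complex.ofReal_zero, zero_mul]
      · rw [h3 i hi w, mul_zero]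
    rw [h5, add_zero] at h4
    exact (mul_eq_zero.1 h4).resolve_left (by exact_mod_cast hk)
  · exact h3 i hk w

/-- Nef implies semiample, for real coefficients. -/
theorem adj_semiample (hΓ : IsTorusQuotient Γ) {q : ℕ} (hq : 1 ≤ q) {ρ : V → ℂ}
    (hρ : IsRamification Γ ρ) {K : LineBundle Γ}
    (hK : IsLogPluricanonical K q ρ (fun _ => 1)) {HK : V → V → ℂ} (hKc : IsChernForm K HK)
    (Δ : EffDiv Γ ι) (hn : IsNefForm (adjClass q HK Δ)) :
    ∃ (n : ℕ) (B : Subgroup ((Fin n → ℂ) ≃ᵃ[ℂ] (Fin n → ℂ))) (π : V →ₗ[ℂ] (Fin n → ℂ)),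
      (∀ v, π v = 0 ↔ ∀ w, adjClass q HK Δ v w = 0) ∧ IsFibration Γ B π ∧
        IsSemiampleAdj q K Δ B π := by
  have hc := chern_o hKc Δ
  have hc' := hc
  choose hG F hF hFe using hc'
  have hinv : ∀ k, ∀ γ ∈ Γ, ∀ v w, Go HK Δ k (γ.linear v) (γ.linear w) = Go HK Δ k v w :=
    fun k γ hγ v w => h_inv (hG k) ⟨hF k, hFe k⟩ ⟨γ, hγ⟩ v w
  have hint : ∀ k, ∀ b ∈ latt Γ, ∀ c ∈ latt Γ, ∃ n : ℤ, (Go HK Δ k b c).im = n :=
    fun k b hb c hc => im_int (hG k) ⟨hF k, hFe k⟩ hb hc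
  have hqr : (0 : ℝ) < (q : ℝ)⁻¹ := inv_pos.2 (by exact_mod_cast hq)
  have ht : ∀ k, 0 ≤ tco q Δ k := by
    rintro (_ | i)
    · exact hqr.le
    · exact Δ.nonneg i
  have hn' : IsNefForm (comb (tco q Δ) (Go HK Δ)) := by rwa [comb_eq]
  obtain ⟨J, hJ, x, a, h1, h2, -, h4⟩ := decomp hΓ hG hinv hint ht hn'
    (forms_zero hΓ hq hρ hK hKc Δ hG hinv)
  have hsum0 : ∑ j, x j * (a j none : ℝ) = (q : ℝ)⁻¹ := h2 none
  have hsumi : ∀ i, ∑ j, x j * (a j (some i) : ℝ) = Δ.r i := fun i => h2 (some i)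
  have hne : Nonempty J := by
    by_contra hcon
    have : IsEmpty J := not_nonempty_iff.1 hcon
    rw [Finset.sum_of_isEmpty] at hsum0
    exact hqr.ne hsum0
  have key : ∀ j, ∃ (n : ℕ) (B : Subgroup ((Fin n → ℂ) ≃ᵃ[ℂ] (Fin n → ℂ)))
      (π : V →ₗ[ℂ] (Fin n → ℂ)), (∀ v, π v = 0 ↔ ∀ w, adjClass q HK Δ v w = 0) ∧
        IsFibration Γ B π ∧ Induces (mix K Δ.L (a j none) fun i => a j (some i)) B π := by
    intro j
    have h5 := prodB_chern hc (a j)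
    rw [mix_eq] at h5
    have hβ : Differentiable ℂ fun v => ∏ i, Δ.s i v ^ a j (some i) :=
      prod_holo Finset.univ (fun i v => Δ.s i v ^ a j (some i))
        fun i _ => (Δ.sect i).holo.pow _
    have hβ0 : ∃ v, ∏ i, Δ.s i v ^ a j (some i) ≠ 0 :=
      prod_ne Finset.univ (fun i v => Δ.s i v ^ a j (some i))
        (fun i _ => (Δ.sect i).holo.pow _) fun i _ => by
          obtain ⟨v, hv⟩ := Δ.ne_zero i
          exact ⟨v, pow_ne_zero _ hv⟩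
    obtain ⟨n, B, π, h6, h7, h8⟩ := abundance hΓ h5 hρ hβ hβ0
      (mix_log hK Δ (a j none) fun i => a j (some i)) (h4 j).1
    refine ⟨n, B, π, fun v => ?_, h7, h8⟩
    rw [h6 v, (h4 j).2 v, comb_eq]
  obtain ⟨n, B, π, h6, h7, -⟩ := key hne.some
  refine ⟨n, B, π, h6, h7, J, hJ, x, fun j => a j none, fun j i => a j (some i), h1, hsum0,
    hsumi, fun j => ?_⟩
  obtain ⟨n', B', π', h6', h7', h8'⟩ := key j
  exact induces_congr h7' h7 (fun v => (h6' v).trans (h6 v).symm) h8'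

end Pool.Agent.Q82.TQ
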