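import Pool.Agent.W594.SYZ.TQ4

/-!
# A bound for the group of linear parts in terms of the dimension (Minkowski)
-/

set_option autoImplicit false

namespace Pool.Agent.Q82.TQ

open Pool.Agent.W594.SYZ2 Pool.Agent.W594.SYZ2.TQ

section Ring

theorem one_add_pow {R : Type*} [Ring R] (x : R) (n : ℕ) :
    ∃ z : R, (1 + x) ^ n = 1 + n • x + x ^ 2 * z := by
  induction n with
  | zero => exact ⟨0, by simp⟩
  | succ n ih =>
    obtain ⟨z, hz⟩ := ih
    refine ⟨n • 1 + z + z * x, ?_⟩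
    rw [pow_succ, hz]
    simp only [nsmul_eq_mul, Nat.cast_add, Nat.cast_one, pow_two]
    have e : (n : R) * x * x = x * x * n := by
      rw [mul_assoc, Nat.cast_comm n (x * x)]
    simp only [mul_add, add_mul, mul_one, one_mul, e]
    have e2 : x * x * (z * x) = x * x * z * x := by simp only [mul_assoc]
    rw [e2]
    abel

variable {ι : Type*} [Fintype ι] [DecidableEq ι]

theorem cancel3 {k : ℕ} {y : Matrix ι ι ℤ} (h : (3 : ℤ) ^ k • y = 0) : y = 0 := by
  have h3 : (3 : ℤ) ^ k ≠ 0 := by positivity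
  exact (smul_eq_zero.1 h).resolve_left h3

theorem step {x : Matrix ι ι ℤ} {p : ℕ} (hp : p.Prime) (hx : (1 + x) ^ p = 1) {k : ℕ} (hk : 1 ≤ k)
    (h : ∃ y : Matrix ι ι ℤ, x = (3 : ℤ) ^ k • y) : ∃ y : Matrix ι ι ℤ, x = (3 : ℤ) ^ (k + 1) • y := by
  obtain ⟨y, rfl⟩ := h
  suffices hy : ∃ w : Matrix ι ι ℤ, y = (3 : ℤ) • w by
    obtain ⟨w, rfl⟩ := hy
    exact ⟨w, by rw [smul_smul, pow_succ]⟩
  obtain ⟨j, rfl⟩ : ∃ j, k = j + 1 := ⟨k - 1, by omega⟩
  by_cases h3 : p = 3
  · subst h3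
    have e1 : (3 : ℤ) ^ (j + 2) • (y + (3 : ℤ) • ((3 : ℤ) ^ j • y ^ 2 + (3 : ℤ) ^ (2 * j) • y ^ 3)) = 0 := by
      have e2 : (1 + (3 : ℤ) ^ (j + 1) • y) ^ 3
          = 1 + (3 : ℤ) ^ (j + 2) • (y + (3 : ℤ) • ((3 : ℤ) ^ j • y ^ 2
            + (3 : ℤ) ^ (2 * j) • y ^ 3)) := by
        have hc : ∀ a : Matrix ι ι ℤ, (1 + a) ^ 3 = 1 + (3 : ℤ) • a + (3 : ℤ) • a ^ 2 + a ^ 3 := by
          intro a
          have : (3 : ℤ) • a = a + a + a := by
            rw [show (3 : ℤ) = 1 + 1 + 1 from rfl, add_smul, add_smul, one_smul]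
          have h2 : (3 : ℤ) • a ^ 2 = a ^ 2 + a ^ 2 + a ^ 2 := by
            rw [show (3 : ℤ) = 1 + 1 + 1 from rfl, add_smul, add_smul, one_smul]
          rw [this, h2]
          noncomm_ring
        rw [hc, smul_pow, smul_pow]
        simp only [smul_add, smul_smul]
        have e3 : (3 : ℤ) * 3 ^ (j + 1) = 3 ^ (j + 2) := by ring
        have e4 : (3 : ℤ) * (3 ^ (j + 1)) ^ 2 = 3 ^ (j + 2) * (3 * 3 ^ j) := by ring
        have e5 : ((3 : ℤ) ^ (j + 1)) ^ 3 = 3 ^ (j + 2) * (3 * 3 ^ (2 * j)) := by ring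
        rw [e3, e4, e5]
        abel
      rw [e2] at hx
      exact add_eq_left.1 hx
    have e6 := cancel3 e1
    refine ⟨-((3 : ℤ) ^ j • y ^ 2 + (3 : ℤ) ^ (2 * j) • y ^ 3), ?_⟩
    rw [smul_neg]
    exact eq_neg_of_add_eq_zero_left e6
  · obtain ⟨z, hz⟩ := one_add_pow ((3 : ℤ) ^ (j + 1) • y) p
    rw [hx] at hz
    have e1 : (3 : ℤ) ^ (j + 1) • ((p : ℤ) • y + (3 : ℤ) • ((3 : ℤ) ^ j • (y ^ 2 * z))) = 0 := by
      have e2 : p • (3 : ℤ) ^ (j + 1) • y + ((3 : ℤ) ^ (j + 1) • y) ^ 2 * z = 0 := by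
        have h1 : (1 : Matrix ι ι ℤ) + (p • (3 : ℤ) ^ (j + 1) • y + ((3 : ℤ) ^ (j + 1) • y) ^ 2 * z)
            = 1 := by
          rw [← add_assoc]
          exact hz.symm
        exact add_eq_left.1 h1
      rw [← e2, smul_pow, smul_mul_assoc, smul_add, smul_smul, smul_smul, smul_smul,
        ← Nat.cast_smul_eq_nsmul ℤ, smul_smul]
      congr 2
      · ring
      · ring
    have e3 := cancel3 e1
    have hcop : IsCoprime (p : ℤ) 3 := by
      have : Nat.Coprime p 3 := (Nat.coprime_primes hp Nat.prime_three).2 h3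
      exact_mod_cast Nat.isCoprime_iff_coprime.2 this
    obtain ⟨u, w, huw⟩ := hcop
    refine ⟨w • y - u • ((3 : ℤ) ^ j • (y ^ 2 * z)), ?_⟩
    have e4 : (p : ℤ) • y = -((3 : ℤ) • ((3 : ℤ) ^ j • (y ^ 2 * z))) := eq_neg_of_add_eq_zero_left e3
    calc y = (u * p + w * 3) • y := by rw [huw, one_smul]
      _ = u • ((p : ℤ) • y) + (3 : ℤ) • (w • y) := by
        rw [add_smul, mul_smul, mul_comm w 3, mul_smul]
      _ = _ := by
        rw [e4, smul_neg, smul_sub, smul_comm u (3 : ℤ)]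
        abel

theorem eq_zero_of_dvd {x : Matrix ι ι ℤ} (h : ∀ k, ∃ y : Matrix ι ι ℤ, x = (3 : ℤ) ^ k • y) : x = 0 := by
  ext i j
  obtain ⟨y, hy⟩ := h ((x i j).natAbs + 1)
  have h1 : x i j = 3 ^ ((x i j).natAbs + 1) * y i j := by
    conv_lhs => rw [hy]
    rfl
  rw [Matrix.zero_apply]
  refine Int.eq_zero_of_abs_lt_dvd (m := 3 ^ ((x i j).natAbs + 1)) ⟨_, h1⟩ ?_
  rw [Int.abs_eq_natAbs]
  have h2 : (x i j).natAbs < 3 ^ ((x i j).natAbs + 1) :=
    (Nat.lt_succ_self _).trans (Nat.lt_pow_self (by norm_num))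
  exact_mod_cast h2

/-- Minkowski's lemma. -/
theorem minkowski {A : Matrix ι ι ℤ} {m : ℕ} (hm : 0 < m) (hA : A ^ m = 1)
    (h3 : A.map (Int.castRingHom (ZMod 3)) = 1) : A = 1 := by
  by_contra hne
  have hfin : IsOfFinOrder A := isOfFinOrder_iff_pow_eq_one.2 ⟨m, hm, hA⟩
  have ho : orderOf A ≠ 1 := fun h => hne (orderOf_eq_one_iff.1 h)
  obtain ⟨p, hp, q, hq⟩ := Nat.exists_prime_and_dvd ho
  have hopos : 0 < orderOf A := hfin.orderOf_pos
  have hq0 : 0 < q := by
    rcases Nat.eq_zero_or_pos q with h | h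
    · rw [h, mul_zero] at hq
      omega
    · exact h
  set B := A ^ q with hB
  have hBp : B ^ p = 1 := by
    rw [hB, ← pow_mul, mul_comm, ← hq, pow_orderOf_eq_one]
  have hBne : B ≠ 1 := by
    intro h
    have h1 : orderOf A ≤ q := orderOf_le_of_pow_eq_one hq0 h
    have h2 := hp.two_le
    rw [hq] at h1
    nlinarith
  have hB3 : B.map (Int.castRingHom (ZMod 3)) = 1 := by
    have : ((Int.castRingHom (ZMod 3)).mapMatrix B) = 1 := by
      rw [hB, map_pow]
      change (A.map (Int.castRingHom (ZMod 3))) ^ q = 1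
      rw [h3, one_pow]
    exact this
  apply hBne
  have hx : (1 + (B - 1)) ^ p = 1 := by rw [add_sub_cancel]; exact hBp
  have h1 : ∃ y : Matrix ι ι ℤ, B - 1 = (3 : ℤ) ^ 1 • y := by
    have h2 : ∀ i j, (3 : ℤ) ∣ (B - 1) i j := by
      intro i j
      have h6 : (((B - 1) i j : ℤ) : ZMod 3) = 0 := by
        have h4 := congrFun (congrFun hB3 i) j
        rw [Matrix.map_apply] at h4
        rw [Matrix.sub_apply, Int.cast_sub]
        have h5 : ((1 : Matrix ι ι ℤ) i j : ZMod 3) = (1 : Matrix ι ι (ZMod 3)) i j := by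
          rw [Matrix.one_apply, Matrix.one_apply]
          split_ifs <;> simp
        rw [h5, ← h4]
        simp
      have h7 := (ZMod.intCast_zmod_eq_zero_iff_dvd ((B - 1) i j) 3).1 h6
      exact_mod_cast h7
    choose y hy using h2
    refine ⟨Matrix.of y, ?_⟩
    ext i j
    rw [hy i j]
    simp
  have h2 : ∀ k, ∃ y : Matrix ι ι ℤ, B - 1 = (3 : ℤ) ^ (k + 1) • y := by
    intro k
    induction k with
    | zero => exact h1
    | succ k ih => exact step hp hx (by omega) ih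
  have h3 : B - 1 = 0 := by
    apply eq_zero_of_dvd
    intro k
    obtain ⟨y, hy⟩ := h2 k
    exact ⟨(3 : ℤ) • y, by rw [hy, smul_smul, pow_succ]⟩
  exact sub_eq_zero.1 h3

end Ring

variable {V : Type*} [NormedAddCommGroup V] [NormedSpace ℂ V] [FiniteDimensional ℂ V]
  {Γ : Subgroup (V ≃ᵃ[ℂ] V)}

/-- The action of a linear part on the lattice. -/
noncomputable def act (g : Lin Γ) : (latt Γ).toIntSubmodule →ₗ[ℤ] (latt Γ).toIntSubmodule where
  toFun := fun b => ⟨g.1 b.1, by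
    obtain ⟨γ, hγ, h⟩ := mem_Lin.1 g.2
    have h1 := latt_inv γ hγ (b := b.1) b.2
    rw [h] at h1
    exact h1⟩
  map_add' := fun b c => Subtype.ext (map_add g.1 _ _)
  map_smul' := fun n b => Subtype.ext (map_zsmul g.1 n b.1)

omit [FiniteDimensional ℂ V] in
theorem act_mul (g h : Lin Γ) : act (g * h) = act g ∘ₗ act h := rfl

omit [FiniteDimensional ℂ V] in
theorem act_one : act (1 : Lin Γ) = LinearMap.id := rfl

omit [FiniteDimensional ℂ V] in
theorem act_inj (hΓ : IsTorusQuotient Γ) {g : Lin Γ} (h : act g = LinearMap.id) : g = 1 := by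
  apply Subtype.ext
  apply LinearEquiv.ext
  intro v
  have hv : v ∈ Submodule.span ℝ (latt Γ : Set V) := by rw [hΓ.span_top]; trivial
  induction hv using Submodule.span_induction with
  | mem x hx =>
    have h1 := LinearMap.congr_fun h ⟨x, hx⟩
    exact congrArg Subtype.val h1
  | zero => rw [map_zero]; rfl
  | add x y _ _ hx hy =>
    rw [map_add, hx, hy]
    rfl
  | smul c x _ hx =>
    have h1 : c • x = (c : ℂ) • x := (Complex.coe_smul c x).symm
    rw [h1, map_smul, hx]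
    rfl

/-- The order of the group of linear parts is bounded in terms of the dimension. -/
theorem card_le (hΓ : IsTorusQuotient Γ) :
    Nat.card (Lin Γ) ≤ 3 ^ ((2 * Module.finrank ℂ V) ^ 2) := by
  classical
  have := finite_Lin hΓ
  have : FiniteDimensional ℝ V := FiniteDimensional.complexToReal V
  have : ProperSpace V := FiniteDimensional.proper ℂ V
  let Λ : Submodule ℤ V := (latt Γ).toIntSubmodule
  have hd : DiscreteTopology Λ := hΓ.discrete
  have hz : IsZLattice ℝ Λ := ⟨hΓ.span_top⟩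
  have hfree : Module.Free ℤ Λ := ZLattice.module_free ℝ Λ
  have hfin : Module.Finite ℤ Λ := ZLattice.module_finite ℝ Λ
  have hrank : Module.finrank ℤ Λ = 2 * Module.finrank ℂ V := by
    rw [ZLattice.rank ℝ Λ, finrank_real_of_complex]
  let b := Module.finBasisOfFinrankEq ℤ Λ hrank
  let M : Lin Γ → Matrix (Fin (2 * Module.finrank ℂ V)) (Fin (2 * Module.finrank ℂ V)) ℤ :=
    fun g => LinearMap.toMatrix b b (act g)
  have hM1 : M 1 = 1 := by
    simp only [M]
    rw [act_one, LinearMap.toMatrix_id]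
  have hMmul : ∀ g h, M (g * h) = M g * M h := by
    intro g h
    simp only [M]
    rw [act_mul, LinearMap.toMatrix_comp b b b]
  have hMpow : ∀ (g : Lin Γ) (n : ℕ), M (g ^ n) = M g ^ n := by
    intro g n
    induction n with
    | zero => rw [pow_zero, pow_zero, hM1]
    | succ n ih => rw [pow_succ, pow_succ, hMmul, ih]
  have hinj : Function.Injective (fun g : Lin Γ => (M g).map (Int.castRingHom (ZMod 3))) := by
    intro g h hgh
    have h1 : (M (h⁻¹ * g)).map (Int.castRingHom (ZMod 3)) = 1 := by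
      have e1 : (Int.castRingHom (ZMod 3)).mapMatrix (M (h⁻¹ * g))
          = (Int.castRingHom (ZMod 3)).mapMatrix (M (h⁻¹ * h)) := by
        rw [hMmul, hMmul, map_mul, map_mul]
        congr 1
      have e2 : (Int.castRingHom (ZMod 3)).mapMatrix (M (h⁻¹ * h)) = 1 := by
        rw [inv_mul_cancel, hM1, map_one]
      exact e1.trans e2
    have h2 : M (h⁻¹ * g) ^ Nat.card (Lin Γ) = 1 := by
      rw [← hMpow, pow_card_eq_one', hM1]
    have h3 := minkowski (Nat.card_pos (α := Lin Γ)) h2 h1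
    have h4 : act (h⁻¹ * g) = LinearMap.id := by
      apply (LinearMap.toMatrix b b).injective
      rw [LinearMap.toMatrix_id]
      exact h3
    have h5 := act_inj hΓ h4
    exact (inv_mul_eq_one.1 h5).symm
  have h1 := Nat.card_le_card_of_injective _ hinj
  refine h1.trans (le_of_eq ?_)
  rw [Nat.card_eq_fintype_card, Fintype.card_congr (Matrix.of.symm : _ ≃ (_ → _ → ZMod 3)),
    Fintype.card_pi, Finset.prod_const, Fintype.card_pi, Finset.prod_const, ZMod.card,
    Finset.card_univ, Fintype.card_fin, ← pow_mul, pow_two]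

end Pool.Agent.Q82.TQ
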