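import Pool.Agent.Y167.Bpf
import Pool.Agent.TH735.AQ.Crit
import Pool.Agent.TH128.SYZ.PsefConv
import Pool.Agent.Q82.TQ.Mink

/-!
# Effective global generation of nef line bundles on torus quotients
-/

set_option autoImplicit false

namespace Pool.Agent.Q82.TQ

open Pool.Agent.W594.SYZ2 Pool.Agent.W594.SYZ2.TQ Pool.Agent.TH735.AQ Pool.Agent.TH128.SYZ
open Pool.Agent.Y167 (EvenForm frac mem_frac card_pos)

variable {V : Type*} [NormedAddCommGroup V] [NormedSpace ℂ V]
  {Γ : Subgroup (V ≃ᵃ[ℂ] V)}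

/-- The line bundle `L` is globally generated: for each point there is a global holomorphic section
which does not vanish there. -/
def IsGloballyGenerated (L : LineBundle Γ) : Prop := ∀ v, ∃ s, L.IsSection s ∧ s v ≠ 0

/-- The inverse line bundle. -/
noncomputable def inv (L : LineBundle Γ) : LineBundle Γ where
  e := fun γ v => (L.e γ v)⁻¹
  holo := fun γ => (L.holo γ).inv (L.ne_zero γ)
  ne_zero := fun γ v => inv_ne_zero (L.ne_zero γ v)
  mul := fun γ δ v => by rw [L.mul, mul_inv]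
  stab := fun γ v h => by rw [L.stab γ v h, inv_one]

theorem gg_pow {L : LineBundle Γ} {a : ℕ} (h : IsGloballyGenerated (L.pow a)) (b : ℕ) :
    IsGloballyGenerated (L.pow (a * b)) := by
  intro v
  obtain ⟨s, hs, hv⟩ := h v
  refine ⟨fun w => s w ^ b, ⟨hs.holo.pow b, fun γ w => ?_⟩, pow_ne_zero b hv⟩
  change s _ ^ b = L.e γ w ^ (a * b) * s w ^ b
  rw [hs.eq, mul_pow, pow_mul]
  rfl

theorem gg_of_dvd {L : LineBundle Γ} {a m : ℕ} (h : IsGloballyGenerated (L.pow a)) (hm : a ∣ m) :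
    IsGloballyGenerated (L.pow m) := by
  obtain ⟨b, rfl⟩ := hm
  exact gg_pow h b

variable [FiniteDimensional ℂ V] {L : LineBundle Γ} {H : V → V → ℂ}

/-- A multiple of a nef class is the class of a globally generated line bundle. -/
theorem exists_gg (hΓ : IsTorusQuotient Γ) (hc : IsChernForm L H) (hn : IsNefForm H) :
    ∃ L' : LineBundle Γ, IsChernForm L' (fun v w => ((4 * Nat.card (Lin Γ) ^ 3 : ℕ) : ℂ) * H v w) ∧
      IsGloballyGenerated L' := by
  obtain ⟨hH, F, hF, hFe⟩ := hc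
  have hpot : IsPot L H F := ⟨hF, hFe⟩
  set N := Nat.card (Lin Γ) with hN
  set q : ℕ := 2 * N ^ 2 with hq
  have hqc : (q : ℂ) = ((q : ℝ) : ℂ) := by push_cast; rfl
  have D : EvenForm Γ N (fun v w => (q : ℂ) * H v w) := by
    refine ⟨⟨?_, ?_, ?_⟩, ?_, ?_, ?_⟩
    · intro u v w
      rw [hH.add_left, mul_add]
    · intro c v w
      rw [hH.smul_left]
      ring
    · intro v w
      rw [map_mul, ← hH.symm, Complex.conj_natCast]
    · intro v
      change 0 ≤ ((q : ℂ) * H v v).re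
      rw [hqc, Complex.re_ofReal_mul]
      exact mul_nonneg (Nat.cast_nonneg _) (hn v)
    · intro γ hγ v w
      change (q : ℂ) * H _ _ = _
      rw [h_inv hH hpot ⟨γ, hγ⟩ v w]
    · intro v hv w hw
      obtain ⟨n, hn⟩ := im_int hH hpot (mem_frac.1 hv) (mem_frac.1 hw)
      refine ⟨n, ?_⟩
      change ((q : ℂ) * H v w).im = 2 * n
      rw [hqc, Complex.im_ofReal_mul, ← hn, ← Complex.coe_smul, ← Complex.coe_smul, hH.smul_left,
        h_smul_right hH, Complex.conj_ofReal, Complex.im_ofReal_mul, Complex.im_ofReal_mul, hq]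
      push_cast
      ring
  obtain ⟨L', hL', hs⟩ := D.bpf hΓ
  refine ⟨L', ?_, hs⟩
  have e1 : (fun v w => ((4 * N ^ 3 : ℕ) : ℂ) * H v w)
      = fun v w => (2 * N : ℂ) * ((q : ℂ) * H v w) := by
    funext v w
    rw [hq]
    push_cast
    ring
  rw [e1]
  exact hL'

/-- Two line bundles with proportional Chern forms differ by a flat line bundle. -/
theorem exists_flat_of_chern {k : ℕ} {L' : LineBundle Γ} (hc : IsChernForm L H)
    (hc' : IsChernForm L' (fun v w => (k : ℂ) * H v w)) :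
    ∃ P : LineBundle Γ, IsFlat P ∧ ∃ h : V → ℂ, Differentiable ℂ h ∧ (∀ v, h v ≠ 0) ∧
      ∀ (γ : Γ) v, h ((γ : V ≃ᵃ[ℂ] V) v) * L'.e γ v = (tensor (L.pow k) P).e γ v * h v := by
  obtain ⟨hH, F, hF, hFe⟩ := hc
  obtain ⟨hH', F', hF', hFe'⟩ := hc'
  let Q : LineBundle Γ := tensor (L.pow k) (inv L')
  let G : V → ℂ := fun v => k * F v - F' v
  have hG : Differentiable ℂ G := (hF.const_mul (k : ℂ)).sub hF'
  have hZ : IsHermitian (fun _ _ : V => (0 : ℂ)) :=
    ⟨fun u v w => (add_zero _).symm, fun a v w => (mul_zero _).symm, fun v w => (map_zero _).symm⟩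
  have hpot : IsPot Q (fun _ _ => 0) G := by
    refine ⟨hG, fun γ v => ?_⟩
    have h1 : ‖Q.e γ v‖ ^ 2 = (‖L.e γ v‖ ^ 2) ^ k * (‖L'.e γ v‖ ^ 2)⁻¹ := by
      change ‖L.e γ v ^ k * (L'.e γ v)⁻¹‖ ^ 2 = _
      rw [norm_mul, norm_pow, norm_inv, mul_pow, inv_pow, ← pow_mul, ← pow_mul, mul_comm k 2]
    rw [h1, hFe, hFe', ← Real.exp_nat_mul, ← Real.exp_neg, ← Real.exp_add]
    congr 1
    have e1 : ∀ z : ℂ, ((k : ℂ) * z).re = k * z.re := by
      intro z
      have : (k : ℂ) = ((k : ℝ) : ℂ) := by push_cast; rfl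
      rw [this, Complex.re_ofReal_mul]
    simp only [G, Complex.sub_re, e1, Complex.zero_re, mul_zero]
    ring
  have hconst : ∀ (γ : Γ) v, tw Q G γ v = tw Q G γ 0 := by
    intro γ v
    have h1 := tw_eq hZ hpot γ v
    rwa [mul_zero, Complex.exp_zero, mul_one] at h1
  have hnorm : ∀ γ : Γ, ‖tw Q G γ 0‖ = 1 := by
    intro γ
    have h1 := tw_norm hpot γ 0
    simp only [Complex.zero_re, sub_self, mul_zero, Real.exp_zero] at h1
    exact (pow_eq_one_iff_of_nonneg (norm_nonneg _) two_ne_zero).1 h1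
  let P : LineBundle Γ :=
    { e := fun γ _ => (tw Q G γ 0)⁻¹
      holo := fun γ => differentiable_const _
      ne_zero := fun γ _ => inv_ne_zero (tw_ne_zero _ _)
      mul := fun γ δ v => by
        rw [tw_mul, hconst γ, mul_inv]
      stab := fun γ v h => by
        rw [← hconst γ v, tw_stab _ _ h, inv_one] }
  refine ⟨P, ⟨fun γ v w => rfl, fun γ v => ?_⟩, fun v => Complex.exp (G v), hG.cexp,
    fun v => Complex.exp_ne_zero _, fun γ v => ?_⟩
  · change ‖(tw Q G γ 0)⁻¹‖ = 1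
    rw [norm_inv, hnorm, inv_one]
  · change Complex.exp (G ((γ : V ≃ᵃ[ℂ] V) v)) * L'.e γ v
      = L.e γ v ^ k * (tw Q G γ 0)⁻¹ * Complex.exp (G v)
    rw [← hconst γ v]
    have h1 : tw Q G γ v = L.e γ v ^ k * (L'.e γ v)⁻¹
        * (Complex.exp (G v) * (Complex.exp (G ((γ : V ≃ᵃ[ℂ] V) v)))⁻¹) := by
      change L.e γ v ^ k * (L'.e γ v)⁻¹ * Complex.exp (G v - G ((γ : V ≃ᵃ[ℂ] V) v)) = _
      rw [Complex.exp_sub, div_eq_mul_inv]
    rw [h1]
    have h2 := L.ne_zero γ v
    have h3 := L'.ne_zero γ v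
    have h4 := Complex.exp_ne_zero (G v)
    have h5 := Complex.exp_ne_zero (G ((γ : V ≃ᵃ[ℂ] V) v))
    field_simp

theorem gg_iso {L L' : LineBundle Γ} {h : V → ℂ} (hh : Differentiable ℂ h) (hne : ∀ v, h v ≠ 0)
    (heq : ∀ (γ : Γ) v, h ((γ : V ≃ᵃ[ℂ] V) v) * L'.e γ v = L.e γ v * h v)
    (hg : IsGloballyGenerated L') : IsGloballyGenerated L := by
  intro v
  obtain ⟨s, hs, hv⟩ := hg v
  refine ⟨fun w => h w * s w, ⟨hh.mul hs.holo, fun γ w => ?_⟩, mul_ne_zero (hne v) hv⟩
  change h _ * s _ = L.e γ w * (h w * s w)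
  rw [hs.eq, ← mul_assoc, heq, mul_assoc]

/-- Every nef line bundle is numerically equivalent to a globally generated one, after passing to a
power which only depends on the order of the group. -/
theorem numerical_gg (hΓ : IsTorusQuotient Γ) (hc : IsChernForm L H) (hn : IsNefForm H) :
    ∃ P : LineBundle Γ, IsFlat P ∧
      IsGloballyGenerated (tensor (L.pow (4 * Nat.card (Lin Γ) ^ 3)) P) := by
  obtain ⟨L', hL', hg⟩ := exists_gg hΓ hc hn
  obtain ⟨P, hP, h, hh, hne, heq⟩ := exists_flat_of_chern hc hL'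
  exact ⟨P, hP, gg_iso hh hne heq hg⟩

/-- If `H^1(X, O_X) = 0` then flat line bundles are torsion, of bounded order. -/
theorem flat_torsion (hΓ : IsTorusQuotient Γ) (h01 : HOneZero Γ) {P : LineBundle Γ} (hP : IsFlat P)
    (γ : Γ) (v : V) : P.e γ v ^ (Nat.card (Lin Γ) ^ 2) = 1 := by
  obtain ⟨hH, F, hF, hFe⟩ := chern_of_flat hP
  have hZ : IsHermitian (fun _ _ : V => (0 : ℂ)) := hH
  have hpot : IsPot P (fun _ _ => 0) (fun _ => 0) := by
    refine ⟨differentiable_const _, fun γ v => ?_⟩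
    rw [hP.2]
    simp
  have S : Sit Γ P (fun _ _ => 0) (fun _ => 0) (0 : V →ₗ[ℂ] (Fin 0 → ℂ)) hZ (Nat.card (Lin Γ)) :=
    { tq := hΓ
      pot := hpot
      nef := fun v => by simp
      surj := fun w => ⟨0, Subsingleton.elim _ _⟩
      ker_iff := fun v => ⟨fun _ w => rfl, fun _ => rfl⟩
      pos := card_pos hΓ
      root := fun b hb hbK => chi_pow hΓ h01 hZ hpot hb hbK }
  have h1 := S.tw_pow γ v (fun w => rfl)
  have h2 : tw P (fun _ => 0) γ v = P.e γ v := by
    change P.e γ v * Complex.exp (0 - 0) = _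
    rw [sub_zero, Complex.exp_zero, mul_one]
  rw [h2, Pool.Agent.TH735.AQ.ex, ← pow_two] at h1
  exact h1

/-- **Effective semiampleness.** If `H^1(X, O_X) = 0` then the power `4 |G| ^ 5` of each nef line
bundle is globally generated. -/
theorem effective (hΓ : IsTorusQuotient Γ) (h01 : HOneZero Γ) (hc : IsChernForm L H)
    (hn : IsNefForm H) : IsGloballyGenerated (L.pow (4 * Nat.card (Lin Γ) ^ 5)) := by
  obtain ⟨P, hP, hg⟩ := numerical_gg hΓ hc hn
  set N := Nat.card (Lin Γ) with hN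
  intro v
  obtain ⟨s, hs, hv⟩ := hg v
  refine ⟨fun w => s w ^ (N ^ 2), ⟨hs.holo.pow _, fun γ w => ?_⟩, pow_ne_zero _ hv⟩
  change s _ ^ (N ^ 2) = L.e γ w ^ (4 * N ^ 5) * s w ^ (N ^ 2)
  rw [hs.eq, mul_pow]
  congr 1
  change (L.e γ w ^ (4 * N ^ 3) * P.e γ w) ^ (N ^ 2) = _
  rw [mul_pow, flat_torsion hΓ h01 hP, mul_one, ← pow_mul]
  congr 1
  ring

/-- If some power of `L` is globally generated then `L` is nef. -/
theorem nef_of_gg (hΓ : IsTorusQuotient Γ) (hc : IsChernForm L H) {m : ℕ} (hm : 0 < m)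
    (hg : IsGloballyGenerated (L.pow m)) : IsNefForm H := by
  obtain ⟨s, hs, h0⟩ := hg 0
  have h1 : IsPseudoEffective (L.pow m) := psef_of_section hs (fun h => h0 (by rw [h]; rfl))
  obtain ⟨hH, F, hF, hFe⟩ := hc
  have e1 : ∀ z : ℂ, ((m : ℂ) * z).re = m * z.re := by
    intro z
    have : (m : ℂ) = ((m : ℝ) : ℂ) := by push_cast; rfl
    rw [this, Complex.re_ofReal_mul]
  have hc' : IsChernForm (L.pow m) (fun v w => (m : ℂ) * H v w) := by
    refine ⟨⟨?_, ?_, ?_⟩, fun v => m * F v, hF.const_mul _, fun γ v => ?_⟩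
    · intro u v w
      rw [hH.add_left, mul_add]
    · intro c v w
      rw [hH.smul_left]
      ring
    · intro v w
      rw [map_mul, ← hH.symm, Complex.conj_natCast]
    · change ‖L.e γ v ^ m‖ ^ 2 = _
      rw [norm_pow, ← pow_mul, mul_comm m 2, pow_mul, hFe, ← Real.exp_nat_mul]
      congr 1
      simp only [e1]
      ring
  have h2 := nef_of_psef hΓ hc' h1
  intro v
  have h3 := h2 v
  rw [e1] at h3
  have h4 : (0 : ℝ) < m := by exact_mod_cast hm
  exact nonneg_of_mul_nonneg_right h3 h4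

/-- A section of a flat line bundle is constant. -/
theorem const_of_flat (hΓ : IsTorusQuotient Γ) {P : LineBundle Γ} (hP : IsFlat P) {s : V → ℂ}
    (hs : P.IsSection s) (v w : V) : s v = s w := by
  have : ProperSpace V := FiniteDimensional.proper ℂ V
  obtain ⟨C, hC⟩ := cobounded (latt Γ) hΓ.span_top
  have hbd : Bornology.IsBounded (Set.range s) := by
    have hK : IsCompact (Metric.closedBall (0 : V) C) := isCompact_closedBall _ _
    obtain ⟨R, hR⟩ := (isBounded_iff_forall_norm_le.1 (hK.image hs.holo.continuous).isBounded)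
    rw [isBounded_iff_forall_norm_le]
    refine ⟨R, ?_⟩
    rintro _ ⟨v, rfl⟩
    obtain ⟨b, hb, hbC⟩ := hC v
    have h1 := congrArg norm (hs.eq (tr b hb) v)
    rw [norm_mul, hP.2, one_mul, tr_apply] at h1
    rw [← h1]
    exact hR _ ⟨b + v, by rwa [mem_closedBall_zero_iff], rfl⟩
  exact hs.holo.apply_eq_apply_of_bounded hbd _ _

/-- If `H^1(X, O_X) ≠ 0` there is a flat line bundle none of whose powers has a nonzero section. -/
theorem exists_flat_no_section (hΓ : IsTorusQuotient Γ) (h01 : ¬ HOneZero Γ) :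
    ∃ P : LineBundle Γ, IsFlat P ∧ ∀ k : ℕ, 0 < k → ∀ s, (P.pow k).IsSection s → s = 0 := by
  obtain ⟨P, hP, hno⟩ := exists_flat hΓ h01
  refine ⟨P, hP, fun k hk s hs => ?_⟩
  have hPk : IsFlat (P.pow k) := ⟨fun γ v w => by
      change P.e γ v ^ k = P.e γ w ^ k
      rw [hP.1 γ v w], fun γ v => by
      change ‖P.e γ v ^ k‖ = 1
      rw [norm_pow, hP.2, one_pow]⟩
  by_contra hs0
  have h0 : s 0 ≠ 0 := by
    intro h
    apply hs0
    funext v
    rw [const_of_flat hΓ hPk hs v 0, h]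
    rfl
  -- `P ^ k` is trivial
  have htriv : ∀ (γ : Γ) v, P.e γ v ^ k = 1 := by
    intro γ v
    have h1 := hs.eq γ v
    rw [const_of_flat hΓ hPk hs _ 0, const_of_flat hΓ hPk hs v 0] at h1
    exact (mul_right_cancel₀ h0 ((one_mul _).trans h1)).symm
  have hZ : IsHermitian (fun _ _ : V => (0 : ℂ)) :=
    ⟨fun u v w => (add_zero _).symm, fun a v w => (mul_zero _).symm, fun v w => (map_zero _).symm⟩
  have hpot : IsPot P (fun _ _ => 0) (fun _ => 0) := by
    refine ⟨differentiable_const _, fun γ v => ?_⟩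
    rw [hP.2]
    simp
  obtain ⟨n, Δ, π, -, h2, h3⟩ := exists_sit hΓ hZ hpot (fun v => by simp) hk (by
    intro b hb _
    rw [chi_eq hb]
    have h2 : tw P (fun _ => 0) (tr b hb) 0 = P.e (tr b hb) 0 := by
      change P.e (tr b hb) 0 * Complex.exp (0 - 0) = _
      rw [sub_zero, Complex.exp_zero, mul_one]
    rw [h2]
    exact htriv _ _)
  exact hno n Δ π h2 h3

end Pool.Agent.Q82.TQ
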