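import Pool.Agent.Q82.TQ.Gen
import Pool.Agent.TH735.AQ.Mero
import Pool.Agent.Y167.Herm
import Pool.Agent.Y167.Inv

/-!
# Effective semiampleness of nef line bundles which are torsion on the kernel
-/

set_option autoImplicit false

namespace Pool.Agent.Q82.TQ

open Pool.Agent.W594.SYZ2 Pool.Agent.W594.SYZ2.TQ Pool.Agent.TH735.AQ Pool.Agent.TH128.SYZ
open Pool.Agent.Y167 (card_pos herm_riesz section_ker)

variable {V : Type*} [NormedAddCommGroup V] [NormedSpace ℂ V] [FiniteDimensional ℂ V]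
  {Γ : Subgroup (V ≃ᵃ[ℂ] V)} {L : LineBundle Γ} {H : V → V → ℂ} {F : V → ℂ}

omit [FiniteDimensional ℂ V] in
theorem zero_herm : IsHermitian (fun _ _ : V => (0 : ℂ)) :=
  ⟨fun _ _ _ => (add_zero _).symm, fun _ _ _ => (mul_zero _).symm, fun _ _ => (map_zero _).symm⟩

omit [FiniteDimensional ℂ V] in
theorem flat_pot {P : LineBundle Γ} (hP : IsFlat P) : IsPot P (fun _ _ => 0) (fun _ => 0) := by
  refine ⟨differentiable_const _, fun γ v => ?_⟩
  rw [hP.2]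
  simp

omit [FiniteDimensional ℂ V] in
theorem flat_tw (P : LineBundle Γ) (γ : Γ) (v : V) : tw P (fun _ => 0) γ v = P.e γ v := by
  change P.e γ v * Complex.exp (0 - 0) = _
  rw [sub_zero, Complex.exp_zero, mul_one]

omit [FiniteDimensional ℂ V] in
theorem flat_chi (P : LineBundle Γ) {b : V} (hb : b ∈ latt Γ) :
    chi P (fun _ => 0) b = P.e (tr b hb) 0 := by
  rw [chi_eq hb, flat_tw]

omit [FiniteDimensional ℂ V] in
theorem flat_pow {P : LineBundle Γ} (hP : IsFlat P) (γ : Γ) (n : ℕ) (v : V) :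
    P.e (γ ^ n) v = P.e γ v ^ n := by
  induction n with
  | zero => rw [pow_zero, pow_zero]; exact P.stab 1 v rfl
  | succ n ih => rw [pow_succ, P.mul, hP.1 (γ ^ n) _ v, ih, pow_succ]

omit [FiniteDimensional ℂ V] in
/-- The power of each element by the order of the group of linear parts is a translation. -/
theorem pow_card_tr (hΓ : IsTorusQuotient Γ) (γ : Γ) :
    ∃ hb : ((γ ^ Nat.card (Lin Γ) : Γ) : V ≃ᵃ[ℂ] V) 0 ∈ latt Γ,
      γ ^ Nat.card (Lin Γ) = tr (((γ ^ Nat.card (Lin Γ) : Γ) : V ≃ᵃ[ℂ] V) 0) hb := by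
  have := finite_Lin hΓ
  set M := Nat.card (Lin Γ) with hM
  apply eq_tr
  let g : Lin Γ := ⟨(γ : V ≃ᵃ[ℂ] V).linear, γ, γ.2, rfl⟩
  have hg : ∀ n : ℕ, ((g ^ n : Lin Γ) : V ≃ₗ[ℂ] V) = ((γ ^ n : Γ) : V ≃ᵃ[ℂ] V).linear := by
    intro n
    have e1 : ((g ^ n : Lin Γ) : V ≃ₗ[ℂ] V) = (g : V ≃ₗ[ℂ] V) ^ n := rfl
    have e2 : ((γ ^ n : Γ) : V ≃ᵃ[ℂ] V) = (γ : V ≃ᵃ[ℂ] V) ^ n := rfl
    have e3 : ((γ : V ≃ᵃ[ℂ] V) ^ n).linear = AffineEquiv.linearHom ((γ : V ≃ᵃ[ℂ] V) ^ n) := rfl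
    rw [e1, e2, e3, map_pow]
    rfl
  intro w
  rw [← hg M, hM, pow_card_eq_one']
  rfl

omit [FiniteDimensional ℂ V] in
theorem inv_pow_zero {ℓ : V →ₗ[ℝ] ℝ} (hℓ : ∀ γ ∈ Γ, ∀ v, ℓ (γ.linear v) = ℓ v) (γ : Γ) (n : ℕ) :
    ℓ (((γ ^ n : Γ) : V ≃ᵃ[ℂ] V) 0) = n * ℓ ((γ : V ≃ᵃ[ℂ] V) 0) := by
  induction n with
  | zero =>
    rw [pow_zero]
    change ℓ (0 : V) = _
    rw [map_zero, Nat.cast_zero, zero_mul]
  | succ n ih =>
    have h1 : ((γ ^ (n + 1) : Γ) : V ≃ᵃ[ℂ] V) 0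
        = ((γ ^ n : Γ) : V ≃ᵃ[ℂ] V) ((γ : V ≃ᵃ[ℂ] V) 0) := by
      rw [pow_succ]
      rfl
    rw [h1, Pool.Agent.W594.SYZ2.TQ.act ((γ ^ n : Γ) : V ≃ᵃ[ℂ] V) ((γ : V ≃ᵃ[ℂ] V) 0), map_add, hℓ _ (γ ^ n).2, ih]
    push_cast
    ring

/-- A flat line bundle which is trivial on the lattice vectors in the kernel is given, up to a power,
by a real functional which vanishes on the kernel. -/
theorem flat_power (hΓ : IsTorusQuotient Γ) (hc : IsChernForm L H) (hn : IsNefForm H)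
    {P : LineBundle Γ} (hP : IsFlat P)
    (htriv : ∀ (b : V) (hb : b ∈ latt Γ), (∀ w, H b w = 0) → P.e (tr b hb) 0 = 1) :
    ∃ ℓ : V →ₗ[ℝ] ℝ, (∀ γ ∈ Γ, ∀ v, ℓ (γ.linear v) = ℓ v) ∧ (∀ v, (∀ w, H v w = 0) → ℓ v = 0) ∧
      ∀ (γ : Γ) (v : V), P.e γ v ^ (Nat.card (Lin Γ) ^ 2)
        = Complex.exp (((Nat.card (Lin Γ) * ℓ ((γ : V ≃ᵃ[ℂ] V) 0) : ℝ) : ℂ) * Complex.I) := by
  classical
  obtain ⟨k, P', -, -, n, Δ, π, hker, hfib, -⟩ := numerical hΓ hc hn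
  obtain ⟨hH, F, hF, hFe⟩ := hc
  have hpot : IsPot L H F := ⟨hF, hFe⟩
  have := finite_Lin hΓ
  have : Fintype (Lin Γ) := Fintype.ofFinite _
  set N := Nat.card (Lin Γ) with hN
  have hZ := zero_herm (V := V)
  have hPp := flat_pot hP
  let χ : V → ℂ := chi P (fun _ => 0)
  have hχadd : ∀ b ∈ latt Γ, ∀ c ∈ latt Γ, χ (b + c) = χ b * χ c := fun b hb c hc =>
    chi_add hZ hPp hb (fun w => rfl) hc (fun w => rfl)
  have hχinv : ∀ γ ∈ Γ, ∀ b ∈ latt Γ, χ (γ.linear b) = χ b := fun γ hγ b hb =>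
    chi_inv hZ hPp ⟨γ, hγ⟩ hb (fun w => rfl)
  have hχnorm : ∀ b ∈ latt Γ, ‖χ b‖ = 1 := fun b hb => by
    simp only [χ]
    rw [flat_chi P hb, hP.2]
  have hχK : ∀ b ∈ latt Γ, π b = 0 → χ b = 1 := fun b hb h => by
    simp only [χ]
    rw [flat_chi P hb]
    exact htriv b hb ((hker b).1 h)
  let T : AddSubgroup (Fin n → ℂ) := (latt Γ).map π.toAddMonoidHom
  have hT : T ≤ latt Δ := by
    rintro _ ⟨b, hb, rfl⟩
    obtain ⟨δ, hδ, h⟩ := hfib.maps _ (mem_latt.1 hb)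
    change AffineEquiv.constVAdd ℂ (Fin n → ℂ) (π b) ∈ Δ
    have h1 : AffineEquiv.constVAdd ℂ (Fin n → ℂ) (π b) = δ := by
      apply AffineEquiv.ext
      intro w
      obtain ⟨v, rfl⟩ := hfib.surj w
      rw [h v]
      change π b + π v = π (b + v)
      rw [map_add]
    rw [h1]
    exact hδ
  let c : (Fin n → ℂ) → ℂ := fun w => if h : ∃ b, b ∈ latt Γ ∧ π b = w then χ h.choose else 1
  have hcb : ∀ b ∈ latt Γ, c (π b) = χ b := by
    intro b hb
    have hex : ∃ b', b' ∈ latt Γ ∧ π b' = π b := ⟨b, hb, rfl⟩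
    have h1 : c (π b) = χ hex.choose := dif_pos hex
    obtain ⟨h2, h3⟩ := hex.choose_spec
    rw [h1]
    have h4 : hex.choose = (hex.choose - b) + b := by abel
    have h5 := hχadd _ ((latt Γ).sub_mem h2 hb) b hb
    rw [← h4, hχK _ ((latt Γ).sub_mem h2 hb) (by rw [map_sub, h3, sub_self]), one_mul] at h5
    exact h5
  obtain ⟨ℓW, hℓW⟩ := exists_real hfib.base T hT c
    (by
      rintro _ ⟨b, hb, rfl⟩
      change ‖c (π b)‖ = 1
      rw [hcb b hb, hχnorm b hb])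
    (by
      rintro _ ⟨b, hb, rfl⟩ _ ⟨b', hb', rfl⟩
      change c (π b + π b') = c (π b) * c (π b')
      rw [← map_add, hcb _ ((latt Γ).add_mem hb hb'), hcb b hb, hcb b' hb', hχadd b hb b' hb'])
  let ℓ : V →ₗ[ℝ] ℝ := ∑ g : Lin Γ, ℓW ∘ₗ ((π ∘ₗ (g.1 : V →ₗ[ℂ] V)).restrictScalars ℝ)
  have hℓ : ∀ v, ℓ v = ∑ g : Lin Γ, ℓW (π (g.1 v)) := by
    intro v
    simp only [ℓ, LinearMap.sum_apply]
    rfl
  have hℓinv : ∀ γ ∈ Γ, ∀ v, ℓ (γ.linear v) = ℓ v := by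
    intro γ hγ v
    rw [hℓ, hℓ]
    let h : Lin Γ := ⟨γ.linear, γ, hγ, rfl⟩
    refine Fintype.sum_equiv (Equiv.mulRight h) _ _ ?_
    intro g
    rfl
  have hℓb : ∀ b ∈ latt Γ, Complex.exp ((ℓ b : ℂ) * Complex.I) = χ b ^ N := by
    intro b hb
    rw [hℓ, Complex.ofReal_sum, Finset.sum_mul, Complex.exp_sum]
    have h1 : ∀ g : Lin Γ, Complex.exp ((ℓW (π (g.1 b)) : ℂ) * Complex.I) = χ b := by
      rintro ⟨g, γ, hγ, rfl⟩
      rw [← hχinv γ hγ b hb, ← hcb _ (latt_inv γ hγ hb)]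
      exact hℓW _ ⟨_, latt_inv γ hγ hb, rfl⟩
    rw [Finset.prod_congr rfl fun g _ => h1 g, Finset.prod_const, Finset.card_univ,
      ← Nat.card_eq_fintype_card]
  refine ⟨ℓ, hℓinv, ?_, ?_⟩
  · intro v hv
    rw [hℓ]
    refine Finset.sum_eq_zero fun g _ => ?_
    obtain ⟨g, γ, hγ, rfl⟩ := g
    have h1 : π (γ.linear v) = 0 := (hker _).2 (ker_inv hH hpot ⟨γ, hγ⟩ hv)
    change ℓW (π (γ.linear v)) = 0
    rw [h1, map_zero]
  · intro γ v
    obtain ⟨hb, hγ⟩ := pow_card_tr hΓ γ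
    rw [pow_two, pow_mul, ← flat_pow hP γ, ← inv_pow_zero hℓinv γ N, hℓb _ hb]
    congr 1
    simp only [χ]
    rw [flat_chi P hb, ← hγ, hP.1 _ 0 v]

/-- A real functional which vanishes on the kernel is given by an invariant vector. -/
theorem exists_vec (hΓ : IsTorusQuotient Γ) (hH : IsHermitian H) (hF : IsPot L H F)
    (hn : IsNefForm H) (ℓ : V →ₗ[ℝ] ℝ) (hℓ : ∀ γ ∈ Γ, ∀ v, ℓ (γ.linear v) = ℓ v)
    (hℓ0 : ∀ v, (∀ w, H v w = 0) → ℓ v = 0) :
    ∃ a : V, (∀ γ ∈ Γ, γ.linear a = a) ∧ ∀ v, (H v a).im = ℓ v := by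
  have := finite_Lin hΓ
  have : Fintype (Lin Γ) := Fintype.ofFinite _
  -- the complex functional
  let φ : V →ₗ[ℂ] ℂ :=
    { toFun := fun v => (ℓ (Complex.I • v) : ℂ) + (ℓ v : ℂ) * Complex.I
      map_add' := fun u v => by
        rw [smul_add, map_add, map_add]
        push_cast
        ring
      map_smul' := fun z v => by
        have h1 : z • v = (z.re : ℝ) • v + (z.im : ℝ) • (Complex.I • v) := by
          rw [← Complex.coe_smul, ← Complex.coe_smul, smul_smul, ← add_smul]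
          congr 1
          exact (Complex.re_add_im z).symm
        have h2 : Complex.I • z • v = (z.re : ℝ) • (Complex.I • v) - (z.im : ℝ) • v := by
          rw [← Complex.coe_smul, ← Complex.coe_smul, smul_smul, smul_smul, ← sub_smul]
          congr 1
          apply Complex.ext <;> simp
        have e1 : ℓ (z • v) = z.re * ℓ v + z.im * ℓ (Complex.I • v) := by
          rw [h1, map_add, ℓ.map_smul z.re v, ℓ.map_smul z.im (Complex.I • v)]
          rfl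
        have e2 : ℓ (Complex.I • z • v) = z.re * ℓ (Complex.I • v) - z.im * ℓ v := by
          rw [h2, map_sub, ℓ.map_smul z.re (Complex.I • v), ℓ.map_smul z.im v]
          rfl
        rw [e1, e2, RingHom.id_apply, smul_eq_mul]
        apply Complex.ext
        · simp
        · simp }
  have hφim : ∀ v, (φ v).im = ℓ v := fun v => by
    change ((ℓ (Complex.I • v) : ℂ) + (ℓ v : ℂ) * Complex.I).im = ℓ v
    simp
  have hφ0 : ∀ v ∈ ker hH, φ v = 0 := by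
    intro v hv
    have h1 : Complex.I • v ∈ ker hH := (ker hH).smul_mem _ hv
    change (ℓ (Complex.I • v) : ℂ) + (ℓ v : ℂ) * Complex.I = 0
    rw [hℓ0 v hv, hℓ0 _ h1]
    simp
  have hφinv : ∀ γ ∈ Γ, ∀ v, φ (γ.linear v) = φ v := by
    intro γ hγ v
    change (ℓ (Complex.I • γ.linear v) : ℂ) + (ℓ (γ.linear v) : ℂ) * Complex.I
      = (ℓ (Complex.I • v) : ℂ) + (ℓ v : ℂ) * Complex.I
    rw [← map_smul, hℓ γ hγ, hℓ γ hγ]
  obtain ⟨T, hT⟩ := (ker hH).exists_isCompl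
  let h : T → T → ℂ := fun u v => H u v
  have hh : IsHermitian h := ⟨fun u v w => hH.add_left _ _ _, fun c v w => hH.smul_left _ _ _,
    fun v w => hH.symm _ _⟩
  have hp : IsPositiveForm h := by
    intro v hv
    refine lt_of_le_of_ne (hn v) fun h0 => hv ?_
    have h1 : (v : V) ∈ ker hH := h_isotropic hH hn v h0.symm
    have h2 : (v : V) ∈ ker hH ⊓ T := ⟨h1, v.2⟩
    rw [hT.inf_eq_bot, Submodule.mem_bot] at h2
    exact Subtype.ext h2
  obtain ⟨a, ha⟩ := herm_riesz hh hp (φ ∘ₗ T.subtype)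
  have haV : ∀ v, H v a = φ v := by
    intro v
    have h1 : v ∈ ker hH ⊔ T := by rw [hT.sup_eq_top]; trivial
    obtain ⟨x, hx, y, hy, rfl⟩ := Submodule.mem_sup.1 h1
    rw [hH.add_left, hx, zero_add, map_add, hφ0 x hx, zero_add]
    exact (ha ⟨y, hy⟩).symm
  have hN : ((Fintype.card (Lin Γ) : ℝ)) ≠ 0 := by
    have : 0 < Fintype.card (Lin Γ) := Fintype.card_pos
    positivity
  refine ⟨((Fintype.card (Lin Γ) : ℝ)⁻¹) • ∑ g : Lin Γ, g.1 (a : V), ?_, ?_⟩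
  · intro γ hγ
    rw [← Complex.coe_smul, map_smul, map_sum]
    congr 1
    let h : Lin Γ := ⟨γ.linear, γ, hγ, rfl⟩
    refine Fintype.sum_equiv (Equiv.mulLeft h) _ _ ?_
    intro g
    rfl
  · intro v
    have h1 : ∀ g : Lin Γ, H v (g.1 (a : V)) = φ v := by
      rintro ⟨g, γ, hγ, rfl⟩
      have h2 := h_inv hH hF ⟨γ, hγ⟩ (γ.linear.symm v) (a : V)
      change H (γ.linear (γ.linear.symm v)) (γ.linear (a : V)) = _ at h2
      rw [LinearEquiv.apply_symm_apply] at h2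
      change H v (γ.linear (a : V)) = φ v
      rw [h2, haV, ← hφinv γ hγ, LinearEquiv.apply_symm_apply]
    have h3 : ∀ s : Finset (Lin Γ), H v (∑ g ∈ s, g.1 (a : V)) = s.card * φ v := by
      classical
      intro s
      induction s using Finset.induction_on with
      | empty => simp [h_zero_right hH]
      | insert g s hg ih =>
        rw [Finset.sum_insert hg, h_add_right hH, h1, ih, Finset.card_insert_of_notMem hg]
        push_cast
        ring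
    rw [← Complex.coe_smul, h_smul_right hH, Complex.conj_ofReal, h3, Complex.im_ofReal_mul,
      Finset.card_univ]
    have h4 : ((Fintype.card (Lin Γ) : ℂ) * φ v).im = (Fintype.card (Lin Γ) : ℝ) * (φ v).im := by
      have : (Fintype.card (Lin Γ) : ℂ) = ((Fintype.card (Lin Γ) : ℝ) : ℂ) := by push_cast; rfl
      rw [this, Complex.im_ofReal_mul]
    rw [h4, hφim, ← mul_assoc, inv_mul_cancel₀ hN, one_mul]

end Pool.Agent.Q82.TQ
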