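import Pool.Agent.Q82.TQ.Eff

/-!
# Effective semiampleness of log canonical divisors on torus quotients
-/

set_option autoImplicit false

namespace Pool.Agent.Q82.TQ

open Pool.Agent.W594.SYZ2 Pool.Agent.W594.SYZ2.TQ Pool.Agent.TH735.AQ Pool.Agent.TH128.SYZ
open Pool.Agent.Y167 (card_pos herm_riesz section_ker)

variable {V : Type*} [NormedAddCommGroup V] [NormedSpace ℂ V] [FiniteDimensional ℂ V]
  {Γ : Subgroup (V ≃ᵃ[ℂ] V)} {L : LineBundle Γ} {H : V → V → ℂ} {F : V → ℂ}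

/-- The character of a nef line bundle with a meromorphic section with poles along the branch divisor
is torsion, of order dividing the order of the group of linear parts. -/
theorem root_of_mero (hΓ : IsTorusQuotient Γ) (hc : IsChernForm L H) (hn : IsNefForm H)
    (hH : IsHermitian H) (hpot : IsPot L H F)
    {θ s : V → ℂ} (hθ : Differentiable ℂ θ) (hs : Differentiable ℂ s)
    (hne : ∃ v, θ v ≠ 0 ∧ ¬ OnMirror Γ v) (hzero : ∀ v, s v = 0 → OnMirror Γ v)
    (heq : ∀ (b : V) (hb : b ∈ latt Γ) (v : V),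
      θ (b + v) * s v = L.e (tr b hb) v * θ v * s (b + v)) :
    ∀ b ∈ latt Γ, b ∈ ker hH → chi L F b ^ Nat.card (Lin Γ) = 1 := by
  classical
  obtain ⟨k, P, -, -, n, Δ, π, hker, hfib, -⟩ := numerical hΓ hc hn
  have hF := hpot.1
  obtain ⟨v₀, hv₀, hmir⟩ := hne
  have hv₀' : s v₀ ≠ 0 := fun h => hmir (hzero v₀ h)
  have : FiniteDimensional ℝ V := FiniteDimensional.complexToReal V
  have := finite_Lin hΓ
  have : Fintype (Lin Γ) := Fintype.ofFinite _
  -- the lattice vectors in `K` span `K`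
  let T : AddSubgroup (Fin n → ℂ) := (latt Γ).map π.toAddMonoidHom
  have hT : (T : Set (Fin n → ℂ)) ⊆ (latt Δ : Set (Fin n → ℂ)) := by
    rintro _ ⟨b, hb, rfl⟩
    obtain ⟨δ, hδ, h⟩ := hfib.maps _ (mem_latt.1 hb)
    change AffineEquiv.constVAdd ℂ (Fin n → ℂ) (π b) ∈ Δ
    have h1 : AffineEquiv.constVAdd ℂ (Fin n → ℂ) (π b) = δ := by
      apply AffineEquiv.ext
      intro w
      obtain ⟨v, rfl⟩ := hfib.surj w
      rw [h v]
      change π b + π v = π (b + v)
      rw [map_add]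
    rw [h1]
    exact hδ
  have hTd : DiscreteTopology T := by
    have h1 : DiscreteTopology (latt Δ : Set (Fin n → ℂ)) := hfib.base.discrete
    exact DiscreteTopology.of_subset h1 hT
  have hsp := span_ker (V := V) (W := Fin n → ℂ) (latt Γ) hΓ.discrete hΓ.span_top T hTd
    (π.restrictScalars ℝ) hfib.surj (fun w => Iff.rfl)
  let K : Submodule ℂ V := KN Γ (ker hH)
  let Ns : Finset (Lin Γ) := Finset.univ.filter (· ∈ NK Γ (ker hH))
  have hNs : 1 ≤ Ns.card := Finset.card_pos.2 ⟨1, by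
    rw [Finset.mem_filter]
    exact ⟨Finset.mem_univ _, (NK Γ (ker hH)).one_mem⟩⟩
  let A : V →ₗ[ℝ] V := ∑ g ∈ Ns, ((g.1 : V →ₗ[ℂ] V).restrictScalars ℝ)
  have hA : ∀ v, A v = ∑ g ∈ Ns, g.1 v := by
    intro v
    simp only [A, LinearMap.sum_apply]
    rfl
  have hAK : ∀ b ∈ latt Γ, b ∈ ker hH → A b ∈ latt Γ ∧ A b ∈ K := by
    intro b hb hbK
    rw [hA]
    obtain ⟨h1, h2, -⟩ := chi_sum' hH hpot hb hbK Ns
    exact ⟨h1, h2, fun g hg => sum_fixed (ker hH) b g hg⟩
  have hspanV : ∀ x ∈ K, x ∈ Submodule.span ℝ {b | b ∈ latt Γ ∧ b ∈ K} := by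
    intro x hx
    have h1 : x ∈ Submodule.span ℝ {b | b ∈ latt Γ ∧ π b = 0} := by
      have h2 : x ∈ LinearMap.ker (π.restrictScalars ℝ) := (hker x).2 hx.1
      rw [← hsp] at h2
      exact h2
    have h2 : A x ∈ Submodule.span ℝ {b | b ∈ latt Γ ∧ b ∈ K} := by
      have h3 : A x ∈ (Submodule.span ℝ {b | b ∈ latt Γ ∧ π b = 0}).map A :=
        Submodule.mem_map_of_mem h1
      rw [Submodule.map_span] at h3
      refine Submodule.span_mono ?_ h3
      rintro _ ⟨b, ⟨hb, hb0⟩, rfl⟩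
      exact hAK b hb ((hker b).1 hb0)
    have h3 : A x = (Ns.card : ℝ) • x := by
      rw [hA, Finset.sum_congr rfl fun g hg => hx.2 g (Finset.mem_filter.1 hg).2,
        Finset.sum_const, ← Nat.cast_smul_eq_nsmul ℝ]
    have h4 : x = ((Ns.card : ℝ)⁻¹) • A x := by
      rw [h3, smul_smul, inv_mul_cancel₀ (by positivity), one_smul]
    rw [h4]
    exact Submodule.smul_mem _ _ h2
  let SK : AddSubgroup K := (latt Γ).comap K.subtype.toAddMonoidHom
  have hmap : (Submodule.span ℝ (SK : Set K)).map (K.subtype.restrictScalars ℝ)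
      = Submodule.span ℝ {b | b ∈ latt Γ ∧ b ∈ K} := by
    rw [Submodule.map_span]
    congr 1
    ext x
    constructor
    · rintro ⟨y, hy, rfl⟩
      exact ⟨hy, y.2⟩
    · rintro ⟨hx, hx0⟩
      exact ⟨⟨x, hx0⟩, hx, rfl⟩
  have hspan : Submodule.span ℝ (SK : Set K) = ⊤ := by
    rw [eq_top_iff]
    rintro ⟨x, hx⟩ -
    have h1 := hspanV x hx
    rw [← hmap] at h1
    obtain ⟨y, hy, hyx⟩ := h1
    have h2 : y = ⟨x, hx⟩ := Subtype.ext hyx
    rwa [← h2]
  have : ProperSpace K := FiniteDimensional.proper ℂ K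
  have hsne : ∀ x : K, s (v₀ + x) ≠ 0 := fun x h =>
    not_onMirror hH hpot hmir x.2 (hzero _ h)
  let u : K → ℂ := fun x => θ (v₀ + x) / s (v₀ + x) * Complex.exp (-F (v₀ + x))
  have hu : Differentiable ℂ u := by
    have h2 : Differentiable ℂ fun x : K => v₀ + (x : V) := K.subtypeL.differentiable.const_add v₀
    have h3 : Differentiable ℂ fun x : K => θ (v₀ + x) := hθ.comp h2
    have h4 : Differentiable ℂ fun x : K => (s (v₀ + x))⁻¹ :=
      Differentiable.inv (h := fun x : K => s (v₀ + x)) (hs.comp h2) hsne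
    have h5 : Differentiable ℂ fun x : K => Complex.exp (-F (v₀ + x)) :=
      (Differentiable.neg (f := fun x : K => F (v₀ + x)) (hF.comp h2)).cexp
    have h6 : u = fun x : K => θ (v₀ + x) * (s (v₀ + x))⁻¹ * Complex.exp (-F (v₀ + x)) := by
      funext x
      simp only [u, div_eq_mul_inv]
    rw [h6]
    exact (h3.mul h4).mul h5
  have hueq : ∀ (b : K) (_ : (b : V) ∈ latt Γ) (x : K), u (b + x) = chi L F b * u x := by
    intro b hb x
    have h1 := heq (b : V) hb (v₀ + x)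
    have h2 := tw_tr_ker hH hpot hb b.2.1 (v₀ + (x : V))
    have hs1 : s ((b : V) + (v₀ + x)) ≠ 0 := by
      have := hsne (b + x)
      rwa [Submodule.coe_add, add_left_comm] at this
    have hs2 := hsne x
    have h3 : θ ((b : V) + (v₀ + x)) / s ((b : V) + (v₀ + x))
        = L.e (tr (b : V) hb) (v₀ + x) * (θ (v₀ + x) / s (v₀ + x)) := by
      rw [div_eq_iff hs1, ← mul_div_assoc, div_mul_eq_mul_div, eq_div_iff hs2]
      exact h1
    simp only [u]
    rw [← h2, tw, tr_apply, Submodule.coe_add, add_left_comm v₀ (b : V) (x : V), h3]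
    have h4 : Complex.exp (-F ((b : V) + (v₀ + x)))
        = Complex.exp (F (v₀ + x) - F ((b : V) + (v₀ + x))) * Complex.exp (-F (v₀ + x)) := by
      rw [← Complex.exp_add]
      congr 1
      ring
    rw [h4]
    ring
  obtain ⟨C, hC⟩ := cobounded SK hspan
  have hbd : Bornology.IsBounded (Set.range u) := by
    have hK : IsCompact (Metric.closedBall (0 : K) C) := isCompact_closedBall _ _
    obtain ⟨R, hR⟩ := (isBounded_iff_forall_norm_le.1 (hK.image hu.continuous).isBounded)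
    rw [isBounded_iff_forall_norm_le]
    refine ⟨R, ?_⟩
    rintro _ ⟨v, rfl⟩
    obtain ⟨b, hb, hbC⟩ := hC v
    have hb' : (b : V) ∈ latt Γ := hb
    have h1 : ‖u (b + v)‖ = ‖u v‖ := by
      rw [hueq b hb' v, norm_mul, chi_norm hH hpot hb' b.2.1, one_mul]
    rw [← h1]
    exact hR _ ⟨b + v, by rwa [mem_closedBall_zero_iff], rfl⟩
  have hone : ∀ b ∈ latt Γ, b ∈ K → chi L F b = 1 := by
    intro b hb hbK
    have h1 := hueq ⟨b, hbK⟩ hb 0
    have h2 : u (⟨b, hbK⟩ + 0) = u 0 := hu.apply_eq_apply_of_bounded hbd _ _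
    rw [h2] at h1
    have h3 : u 0 ≠ 0 := by
      simp only [u, Submodule.coe_zero, add_zero]
      exact mul_ne_zero (div_ne_zero hv₀ hv₀') (Complex.exp_ne_zero _)
    exact (mul_right_cancel₀ h3 ((one_mul _).trans h1)).symm
  have hroot : ∀ b ∈ latt Γ, b ∈ ker hH → chi L F b ^ Ns.card = 1 := by
    intro b hb hbK
    obtain ⟨h1, h2⟩ := hAK b hb hbK
    have h3 := hone _ h1 h2
    rw [hA] at h3
    rw [← (chi_sum' hH hpot hb hbK Ns).2.2]
    exact h3
  intro b hb hbK
  have h1 : Ns.card ∣ Nat.card (Lin Γ) := by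
    have h2 : Ns.card = Nat.card (NK Γ (ker hH)) := by
      rw [Nat.card_eq_fintype_card, Fintype.card_subtype]
    rw [h2]
    exact Subgroup.card_subgroup_dvd_card _
  obtain ⟨c, hc'⟩ := h1
  rw [hc', pow_mul, hroot b hb hbK, one_pow]


omit [FiniteDimensional ℂ V] in
/-- The potential of `L ^ k ⊗ P`. -/
theorem pot_tensor (hH : IsHermitian H) (hF : IsPot L H F) {P : LineBundle Γ} (hP : IsFlat P)
    (k : ℕ) : IsHermitian (fun v w => (k : ℂ) * H v w) ∧
      IsPot (tensor (L.pow k) P) (fun v w => (k : ℂ) * H v w) (fun v => (k : ℂ) * F v) := by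
  have hMr : ∀ z : ℂ, ((k : ℂ) * z).re = (k : ℝ) * z.re := fun z => by
    have : ((k : ℕ) : ℂ) = ((k : ℝ) : ℂ) := by push_cast; rfl
    rw [this, Complex.re_ofReal_mul]
  refine ⟨⟨fun u v w => ?_, fun a v w => ?_, fun v w => ?_⟩, hF.1.const_mul _, fun γ v => ?_⟩
  · rw [hH.add_left, mul_add]
  · rw [hH.smul_left]
    ring
  · rw [map_mul, ← hH.symm, Complex.conj_natCast]
  · have h1 : ‖(tensor (L.pow k) P).e γ v‖ ^ 2 = (‖L.e γ v‖ ^ 2) ^ k := by
      change ‖L.e γ v ^ k * P.e γ v‖ ^ 2 = _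
      rw [norm_mul, hP.2 γ v, mul_one, norm_pow, ← pow_mul, ← pow_mul, mul_comm]
    rw [h1, hF.2, ← Real.exp_nat_mul]
    simp only [hMr]
    congr 1
    ring

/-- If `L ^ k ⊗ P` has a section which does not vanish at the origin, and the `k`-th power of the
character of `L` is trivial, then so is the character of `P`. -/
theorem triv_of_section (hΓ : IsTorusQuotient Γ) (hH : IsHermitian H) (hF : IsPot L H F)
    {P : LineBundle Γ} (hP : IsFlat P) {k : ℕ}
    (hroot : ∀ b ∈ latt Γ, b ∈ ker hH → chi L F b ^ k = 1) {s : V → ℂ}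
    (hs : (tensor (L.pow k) P).IsSection s) (h0 : s 0 ≠ 0) (b : V) (hb : b ∈ latt Γ)
    (hbK : ∀ w, H b w = 0) : P.e (tr b hb) 0 = 1 := by
  obtain ⟨hH', hF'⟩ := pot_tensor hH hF hP k
  have hbK' : b ∈ ker hH' := fun w => by
    change (k : ℂ) * H b w = 0
    rw [hbK w, mul_zero]
  have h1 := section_ker hΓ hH' hF' hs hbK' 0
  rw [zero_add] at h1
  have h2 := hs.eq (tr b hb) 0
  rw [tr_apply, add_zero] at h2
  change s b = (L.e (tr b hb) 0 ^ k * P.e (tr b hb) 0) * s 0 at h2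
  rw [h2] at h1
  have h3 := hroot b hb hbK
  rw [chi_eq hb, tw, tr_apply, add_zero, mul_pow, ← Complex.exp_nat_mul, mul_sub, sub_eq_add_neg,
    Complex.exp_add] at h3
  have h4 : (L.e (tr b hb) 0 ^ k * (Complex.exp (k * F 0) * Complex.exp (-(k * F b))))
      * P.e (tr b hb) 0 * (s 0 * Complex.exp (-(k * F 0))) = s 0 * Complex.exp (-(k * F 0)) := by
    have h5 : Complex.exp (k * F 0) * Complex.exp (-(k * F 0)) = 1 := by
      rw [← Complex.exp_add, add_neg_cancel, Complex.exp_zero]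
    linear_combination (Complex.exp (k * F 0) * Complex.exp (-(k * F 0))) * h1
      + (s 0 * Complex.exp (-(k * F 0))) * h5
  rw [h3, one_mul] at h4
  have h5 : s 0 * Complex.exp (-(k * F 0)) ≠ 0 := mul_ne_zero h0 (Complex.exp_ne_zero _)
  exact mul_right_cancel₀ h5 (h4.trans (one_mul _).symm)

/-- Translation by an invariant vector. -/
theorem shift_gg (hH : IsHermitian H) (hF : IsPot L H F) {K : ℕ} {M : LineBundle Γ} {a : V}
    (ha : ∀ γ ∈ Γ, γ.linear a = a)
    (heq : ∀ (γ : Γ) (v : V), M.e γ v = L.e γ v ^ K *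
      Complex.exp (((2 * Real.pi * K * (H ((γ : V ≃ᵃ[ℂ] V) 0) a).im : ℝ) : ℂ) * Complex.I))
    (hg : IsGloballyGenerated M) : IsGloballyGenerated (L.pow K) := by
  intro v₀
  obtain ⟨σ, hσ, hv₀⟩ := hg (v₀ + a)
  have hla : Differentiable ℂ fun v : V => H v a := by
    have h1 : (fun v => H v a) = fun v => LinearMap.toContinuousLinearMap (hl hH a) v := rfl
    rw [h1]
    exact ContinuousLinearMap.differentiable _
  have hsh : Differentiable ℂ fun v : V => v + a := differentiable_id.add_const a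
  refine ⟨fun v => σ (v + a) * Complex.exp (-(K * (F (v + a) - F v)) - K * (Real.pi * H v a)),
    ⟨(hσ.holo.comp hsh).mul ((((hF.1.comp hsh).sub hF.1).const_mul _).neg.sub
      ((hla.const_mul _).const_mul _)).cexp, fun γ v => ?_⟩,
    mul_ne_zero hv₀ (Complex.exp_ne_zero _)⟩
  set g := (γ : V ≃ᵃ[ℂ] V) with hgdef
  have hga : g (v + a) = g v + a := by rw [act_add, ha g γ.2]
  have h1 : σ (g v + a) = M.e γ (v + a) * σ (v + a) := by
    rw [← hga]
    exact hσ.eq γ (v + a)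
  have h2 : L.e γ (v + a) = L.e γ v * Complex.exp (F v - F (g v) + Real.pi * H a (g 0)
      + (F (g v + a) - F (v + a))) := by
    have h3 := tw_eq hH hF γ (v + a)
    have h4 := tw_eq hH hF γ v
    rw [← hgdef, map_add, ha g γ.2, hH.add_left, mul_add, Complex.exp_add, ← mul_assoc, ← h4] at h3
    simp only [tw] at h3
    rw [← hgdef, hga] at h3
    have h5 : L.e γ (v + a) = L.e γ (v + a) * Complex.exp (F (v + a) - F (g v + a))
        * Complex.exp (F (g v + a) - F (v + a)) := by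
      rw [mul_assoc, ← Complex.exp_add, sub_add_sub_cancel, sub_self, Complex.exp_zero, mul_one]
    rw [h5, h3, Complex.exp_add, Complex.exp_add]
    ring
  have h6 : H (g v) a = H v a + H (g 0) a := by
    have h7 := h_inv hH hF γ v a
    rw [← hgdef, ha g γ.2] at h7
    rw [Pool.Agent.W594.SYZ2.TQ.act g v, hH.add_left, h7]
  have h8 : H a (g 0) - H (g 0) a = -(2 * ((H (g 0) a).im : ℂ) * Complex.I) := by
    rw [hH.symm (g 0) a]
    apply Complex.ext
    · simp
    · simp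
      ring
  change σ (g v + a) * Complex.exp (-(K * (F (g v + a) - F (g v))) - K * (Real.pi * H (g v) a))
    = L.e γ v ^ K * (σ (v + a) * Complex.exp (-(K * (F (v + a) - F v)) - K * (Real.pi * H v a)))
  rw [h1, heq, h2, mul_pow, ← Complex.exp_nat_mul, h6]
  have h9 : ∀ A B C D E X : ℂ, A * Complex.exp B * Complex.exp C * D * Complex.exp E
      = A * (D * Complex.exp (B + C + E)) := by
    intro A B C D E X
    rw [Complex.exp_add, Complex.exp_add]
    ring
  rw [h9 _ _ _ _ _ 0]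
  congr 3
  push_cast
  linear_combination ((K : ℂ) * Real.pi) * h8

/-- **Effective semiampleness**: if the `N`-th power of the character of `L` on the kernel torus is
trivial, `N` the order of the group of linear parts, then `L ^ (4 N ^ 5)` is globally generated. -/
theorem effective_of_root (hΓ : IsTorusQuotient Γ) (hH : IsHermitian H) (hF : IsPot L H F)
    (hn : IsNefForm H)
    (hroot : ∀ b ∈ latt Γ, b ∈ ker hH → chi L F b ^ Nat.card (Lin Γ) = 1) :
    IsGloballyGenerated (L.pow (4 * Nat.card (Lin Γ) ^ 5)) := by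
  have hc : IsChernForm L H := ⟨hH, F, hF.1, hF.2⟩
  obtain ⟨P, hP, hg⟩ := numerical_gg hΓ hc hn
  set N := Nat.card (Lin Γ) with hN
  have hNpos : 0 < N := card_pos hΓ
  have hroot' : ∀ b ∈ latt Γ, b ∈ ker hH → chi L F b ^ (4 * N ^ 3) = 1 := by
    intro b hb hbK
    have h1 : 4 * N ^ 3 = N * (4 * N ^ 2) := by ring
    rw [h1, pow_mul, hroot b hb hbK, one_pow]
  obtain ⟨s, hs, h0⟩ := hg 0
  obtain ⟨ℓ, hℓ, hℓ0, hℓe⟩ := flat_power hΓ hc hn hP
    (triv_of_section hΓ hH hF hP hroot' hs h0)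
  rw [← hN] at hℓe
  set K := 4 * N ^ 5 with hKdef
  have hK0 : (K : ℝ) ≠ 0 := by
    have : 0 < K := by positivity
    positivity
  obtain ⟨a, ha, hav⟩ := exists_vec hΓ hH hF hn (((N : ℝ) / (2 * Real.pi * K)) • ℓ)
    (fun γ hγ v => by rw [LinearMap.smul_apply, LinearMap.smul_apply, hℓ γ hγ])
    (fun v hv => by rw [LinearMap.smul_apply, hℓ0 v hv, smul_zero])
  have hg2 : IsGloballyGenerated ((tensor (L.pow (4 * N ^ 3)) P).pow (N ^ 2)) := by
    intro v
    obtain ⟨t, ht, hv⟩ := hg v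
    refine ⟨fun w => t w ^ (N ^ 2), ⟨ht.holo.pow _, fun γ w => ?_⟩, pow_ne_zero _ hv⟩
    rw [ht.eq, mul_pow]
    rfl
  refine shift_gg hH hF ha (M := (tensor (L.pow (4 * N ^ 3)) P).pow (N ^ 2)) ?_ hg2
  intro γ v
  change (L.e γ v ^ (4 * N ^ 3) * P.e γ v) ^ (N ^ 2) = _
  rw [mul_pow, ← pow_mul, hℓe γ v]
  have h1 : 4 * N ^ 3 * N ^ 2 = K := by rw [hKdef]; ring
  rw [h1]
  congr 3
  rw [hav, LinearMap.smul_apply, smul_eq_mul]
  have h2 : (2 * Real.pi * K) ≠ 0 := mul_ne_zero (mul_ne_zero two_ne_zero Real.pi_ne_zero) hK0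
  field_simp

/-- **Effective abundance** for pairs on torus quotients. -/
theorem effective_log (hΓ : IsTorusQuotient Γ) (hc : IsChernForm L H) {ρ β : V → ℂ} {m : ℕ}
    (hρ : IsRamification Γ ρ) (hβ : Differentiable ℂ β)
    (hβ0 : ∃ v, β v ≠ 0) (hL : IsLogPluricanonical L m ρ β) (hn : IsNefForm H) :
    IsGloballyGenerated (L.pow (4 * Nat.card (Lin Γ) ^ 5)) := by
  have hc' := hc
  obtain ⟨hH, F, hF, hFe⟩ := hc'
  have hpot : IsPot L H F := ⟨hF, hFe⟩
  refine effective_of_root hΓ hH hpot hn ?_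
  obtain ⟨v, hv, hv'⟩ := exists_common hβ hρ.holo hβ0 (ram_ne_zero hρ)
  refine root_of_mero hΓ hc hn hH hpot hβ (hρ.holo.pow m)
    ⟨v, hv, fun h => hv' ((hρ.zero_iff v).2 h)⟩
    (fun w hw => (hρ.zero_iff w).1 (eq_zero_of_pow_eq_zero hw)) ?_
  intro b hb w
  have h1 := hL (tr b hb) w
  have h2 : LinearMap.det (((tr b hb : Γ) : V ≃ᵃ[ℂ] V).linear : V →ₗ[ℂ] V) = 1 := by
    have h3 : (((tr b hb : Γ) : V ≃ᵃ[ℂ] V).linear : V →ₗ[ℂ] V) = LinearMap.id := by
      ext w
      exact tr_linear b hb w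
    rw [h3, LinearMap.det_id]
  rw [h2, one_pow, mul_one, tr_apply] at h1
  exact h1

end Pool.Agent.Q82.TQ
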