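import Mathlib

/-!
# Rational decompositions of real points which satisfy linear equations with integral coefficients
-/

set_option autoImplicit false

namespace Pool.Agent.Q82.TQ

open Finset

theorem exists_near {a δ : ℝ} (hδ : 0 < δ) :
    ∃ p q : ℚ, |(p : ℝ) - a| < δ ∧ |(q : ℝ) - a| < δ ∧ a ∈ convexHull ℝ ({(p : ℝ), (q : ℝ)} : Set ℝ) := by
  obtain ⟨p, hp1, hp2⟩ := exists_rat_btwn (show a - δ < a by linarith)
  obtain ⟨q, hq1, hq2⟩ := exists_rat_btwn (show a < a + δ by linarith)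
  refine ⟨p, q, by rw [abs_lt]; constructor <;> linarith, by rw [abs_lt]; constructor <;> linarith, ?_⟩
  rw [convexHull_pair, segment_eq_Icc (hp2.trans hq1).le]
  exact ⟨hp2.le, hq1.le⟩

theorem exists_rat_decomp {κ : Type} [Fintype κ] (t : κ → ℝ) (E : Set (κ → ℤ))
    (hE : ∀ e ∈ E, ∑ k, (e k : ℝ) * t k = 0) {ε : ℝ} (hε : 0 < ε) :
    ∃ (J : Type) (_ : Fintype J) (x : J → ℝ) (s : J → κ → ℚ), (∀ j, 0 < x j) ∧ ∑ j, x j = 1 ∧
      (∀ k, ∑ j, x j * (s j k : ℝ) = t k) ∧ (∀ j, ∀ e ∈ E, ∑ k, (e k : ℚ) * s j k = 0) ∧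
      ∀ j k, |(s j k : ℝ) - t k| < ε := by
  classical
  -- the rational span
  let Wq : Submodule ℚ ℝ := Submodule.span ℚ (Set.range t)
  have : Module.Finite ℚ Wq := Module.Finite.span_of_finite ℚ (Set.finite_range t)
  let B := Module.finBasis ℚ Wq
  set p := Module.finrank ℚ Wq with hp
  let α : Fin p → ℝ := fun l => (B l : ℝ)
  have htW : ∀ k, t k ∈ Wq := fun k => Submodule.subset_span ⟨k, rfl⟩
  let c : κ → Fin p → ℚ := fun k l => B.repr ⟨t k, htW k⟩ l
  have hc : ∀ k, t k = ∑ l, (c k l : ℝ) * α l := by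
    intro k
    have h1 := B.sum_repr ⟨t k, htW k⟩
    have h2 := congrArg (Submodule.subtype Wq) h1
    rw [map_sum] at h2
    have h3 : (Submodule.subtype Wq) ⟨t k, htW k⟩ = t k := rfl
    rw [h3] at h2
    rw [← h2]
    refine Finset.sum_congr rfl fun l _ => ?_
    rw [map_smul]
    change (c k l) • (B l : ℝ) = _
    rw [Rat.smul_def]
  have hind : LinearIndependent ℚ α := by
    have h1 := B.linearIndependent
    exact h1.map' (Submodule.subtype Wq) (Submodule.ker_subtype Wq)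
  have hEc : ∀ e ∈ E, ∀ l, ∑ k, (e k : ℚ) * c k l = 0 := by
    intro e he
    have h1 := hE e he
    have h2 : ∑ l, (∑ k, (e k : ℚ) * c k l) • α l = 0 := by
      rw [← h1]
      simp_rw [hc, Finset.mul_sum]
      rw [Finset.sum_comm]
      refine Finset.sum_congr rfl fun l _ => ?_
      rw [Rat.smul_def]
      push_cast
      rw [Finset.sum_mul]
      refine Finset.sum_congr rfl fun k _ => ?_
      ring
    exact Fintype.linearIndependent_iff.1 hind _ h2
  -- the size of the neighbourhood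
  let M : ℝ := 1 + ∑ k, ∑ l, |(c k l : ℝ)|
  have hM : 0 < M := by
    have : 0 ≤ ∑ k, ∑ l, |(c k l : ℝ)| :=
      Finset.sum_nonneg fun k _ => Finset.sum_nonneg fun l _ => abs_nonneg _
    simp only [M]
    linarith
  have hδ : 0 < ε / M := div_pos hε hM
  choose β γ h1 h2 h3 using fun l => exists_near (a := α l) hδ
  have hmem : α ∈ convexHull ℝ (Set.univ.pi fun l => ({(β l : ℝ), (γ l : ℝ)} : Set ℝ)) :=
    mem_convexHull_pi fun l _ => h3 l
  obtain ⟨J, hJ, w, z, hw0, hw1, hz, hzs⟩ := mem_convexHull_iff_exists_fintype.1 hmem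
  have hzq : ∀ j l, ∃ r : ℚ, (r : ℝ) = z j l ∧ |(r : ℝ) - α l| < ε / M := by
    intro j l
    have h4 := hz j l (Set.mem_univ l)
    rcases h4 with h4 | h4
    · exact ⟨β l, h4.symm, h1 l⟩
    · exact ⟨γ l, (Set.mem_singleton_iff.1 h4).symm, h2 l⟩
  choose r hr1 hr2 using hzq
  let J' := {j : J // 0 < w j}
  have hsum : ∀ f : J → ℝ, ∑ j : J', w j.1 * f j.1 = ∑ j, w j * f j := by
    intro f
    have h5 : ∑ j ∈ Finset.univ.filter (fun j => 0 < w j), w j * f j = ∑ j : J', w j.1 * f j.1 :=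
      Finset.sum_subtype (p := fun j => 0 < w j) (F := Subtype.fintype _)
      (Finset.univ.filter fun j => 0 < w j) (fun j => by simp) (fun j => w j * f j)
    rw [← h5]
    refine Finset.sum_filter_of_ne fun j _ hj => ?_
    rcases (hw0 j).lt_or_eq with h | h
    · exact h
    · exact absurd (by rw [← h, zero_mul]) hj
  refine ⟨J', inferInstance, fun j => w j.1, fun j k => ∑ l, c k l * r j.1 l, fun j => j.2, ?_, ?_, ?_, ?_⟩
  · have h5 := hsum fun _ => 1
    simp only [mul_one] at h5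
    rw [h5, hw1]
  · intro k
    have h5 := hsum fun j => ∑ l, (c k l : ℝ) * z j l
    have h6 : ∀ j : J', (((∑ l, c k l * r j.1 l : ℚ)) : ℝ) = ∑ l, (c k l : ℝ) * z j.1 l := by
      intro j
      push_cast
      exact Finset.sum_congr rfl fun l _ => by rw [hr1]
    simp_rw [h6]
    rw [h5, hc k]
    simp_rw [Finset.mul_sum]
    rw [Finset.sum_comm]
    refine Finset.sum_congr rfl fun l _ => ?_
    have h7 : α l = ∑ j, w j * z j l := by
      rw [← hzs, Finset.sum_apply]
      rfl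
    rw [h7, Finset.mul_sum]
    exact Finset.sum_congr rfl fun j _ => by ring
  · intro j e he
    simp_rw [Finset.mul_sum]
    rw [Finset.sum_comm]
    refine Finset.sum_eq_zero fun l _ => ?_
    have h5 := hEc e he l
    have h6 : ∑ k, (e k : ℚ) * (c k l * r j.1 l) = (∑ k, (e k : ℚ) * c k l) * r j.1 l := by
      rw [Finset.sum_mul]
      exact Finset.sum_congr rfl fun k _ => by ring
    rw [h6, h5, zero_mul]
  · intro j k
    have h5 : (((∑ l, c k l * r j.1 l : ℚ)) : ℝ) - t k = ∑ l, (c k l : ℝ) * ((r j.1 l : ℝ) - α l) := by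
      rw [hc k]
      push_cast
      rw [← Finset.sum_sub_distrib]
      exact Finset.sum_congr rfl fun l _ => by ring
    rw [h5]
    have h6 : |∑ l, (c k l : ℝ) * ((r j.1 l : ℝ) - α l)| ≤ (∑ l, |(c k l : ℝ)|) * (ε / M) := by
      refine (Finset.abs_sum_le_sum_abs _ _).trans ?_
      rw [Finset.sum_mul]
      refine Finset.sum_le_sum fun l _ => ?_
      rw [abs_mul]
      exact mul_le_mul_of_nonneg_left (hr2 j.1 l).le (abs_nonneg _)
    have h7 : ∑ l, |(c k l : ℝ)| < M := by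
      have h8 : ∑ l, |(c k l : ℝ)| ≤ ∑ k, ∑ l, |(c k l : ℝ)| :=
        Finset.single_le_sum (f := fun k => ∑ l, |(c k l : ℝ)|)
          (fun k _ => Finset.sum_nonneg fun l _ => abs_nonneg _) (Finset.mem_univ k)
      simp only [M]
      linarith
    calc _ ≤ (∑ l, |(c k l : ℝ)|) * (ε / M) := h6
      _ < M * (ε / M) := mul_lt_mul_of_pos_right h7 hδ
      _ = ε := by field_simp

/-- Natural numbers instead of rational numbers. -/
theorem exists_nat_decomp {κ : Type} [Fintype κ] (t : κ → ℝ) (ht : ∀ k, 0 ≤ t k) (E : Set (κ → ℤ))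
    (hE : ∀ e ∈ E, ∑ k, (e k : ℝ) * t k = 0) {ε : ℝ} (hε : 0 < ε) :
    ∃ (J : Type) (_ : Fintype J) (x : J → ℝ) (D : J → ℕ) (a : J → κ → ℕ), (∀ j, 0 < x j) ∧
      (∀ j, 0 < D j) ∧
      (∀ k, ∑ j, x j * (a j k : ℝ) = t k) ∧ (∀ j, ∀ e ∈ E, ∑ k, e k * (a j k : ℤ) = 0) ∧
      (∀ j k, |(a j k : ℝ) / D j - t k| < ε) ∧ (∀ j k, t k = 0 → a j k = 0) ∧
      (∀ j k, 0 < t k → 0 < a j k) ∧ ∑ j, x j * (D j : ℝ) = 1 := by
  classical
  -- the smallest positive coordinate
  obtain ⟨η, hη, hηt⟩ : ∃ η > 0, ∀ k, 0 < t k → η ≤ t k := by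
    by_cases hne : (Finset.univ.filter fun k => 0 < t k).Nonempty
    · obtain ⟨k, hk, hmin⟩ := Finset.exists_min_image _ t hne
      exact ⟨t k, (Finset.mem_filter.1 hk).2, fun k' hk' => hmin k' (by simp [hk'])⟩
    · refine ⟨1, one_pos, fun k hk => ?_⟩
      exact absurd ⟨k, by simp [hk]⟩ hne
  let E' : Set (κ → ℤ) := E ∪ {e | ∃ k, t k = 0 ∧ e = Pi.single k 1}
  have hE' : ∀ e ∈ E', ∑ k, (e k : ℝ) * t k = 0 := by
    rintro e (he | ⟨k, hk, rfl⟩)
    · exact hE e he
    · rw [Finset.sum_eq_single k]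
      · rw [hk, mul_zero]
      · intro k' _ hk'
        rw [Pi.single_eq_of_ne hk', Int.cast_zero, zero_mul]
      · exact fun h => absurd (Finset.mem_univ k) h
  obtain ⟨J, hJ, x, s, h1, h2, h3, h4, h5⟩ := exists_rat_decomp t E' hE' (lt_min hε hη)
  have hs0 : ∀ j k, t k = 0 → s j k = 0 := by
    intro j k hk
    have h6 := h4 j (Pi.single k 1) (Or.inr ⟨k, hk, rfl⟩)
    rw [Finset.sum_eq_single k] at h6
    · rwa [Pi.single_eq_same, Int.cast_one, one_mul] at h6
    · intro k' _ hk'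
      rw [Pi.single_eq_of_ne hk', Int.cast_zero, zero_mul]
    · exact fun h => absurd (Finset.mem_univ k) h
  have hspos : ∀ j k, 0 < t k → 0 < s j k := by
    intro j k hk
    have h6 := (h5 j k).trans_le (min_le_right _ _)
    have h7 := hηt k hk
    rw [abs_lt] at h6
    have h8 : (0 : ℝ) < s j k := by linarith
    exact_mod_cast h8
  have hsnn : ∀ j k, 0 ≤ s j k := by
    intro j k
    rcases (ht k).lt_or_eq with h | h
    · exact (hspos j k h).le
    · exact (hs0 j k h.symm).ge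
  let D : J → ℕ := fun j => ∏ k, (s j k).den
  have hD : ∀ j, 0 < D j := fun j => Finset.prod_pos fun k _ => (s j k).den_pos
  have hint : ∀ j k, ∃ a : ℕ, (a : ℚ) = D j * s j k := by
    intro j k
    have h6 : (D j : ℚ) = (s j k).den * ∏ k' ∈ Finset.univ.erase k, ((s j k').den : ℚ) := by
      simp only [D]
      rw [← Finset.mul_prod_erase Finset.univ _ (Finset.mem_univ k)]
      push_cast
      rfl
    refine ⟨(s j k).num.toNat * ∏ k' ∈ Finset.univ.erase k, (s j k').den, ?_⟩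
    have h7 : (((s j k).num.toNat : ℕ) : ℚ) = (s j k).den * s j k := by
      have h8 : (((s j k).num.toNat : ℤ)) = (s j k).num :=
        Int.toNat_of_nonneg (Rat.num_nonneg.2 (hsnn j k))
      have h9 : (((s j k).num.toNat : ℕ) : ℚ) = (((s j k).num.toNat : ℤ) : ℚ) := by norm_cast
      rw [h9, h8]
      exact (Rat.den_mul_eq_num (s j k)).symm
    rw [h6]
    push_cast
    rw [h7]
    ring
  choose a ha using hint
  have haR : ∀ j k, (a j k : ℝ) = D j * s j k := by
    intro j k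
    have := ha j k
    exact_mod_cast this
  have hDR : ∀ j, (0 : ℝ) < D j := fun j => by exact_mod_cast hD j
  refine ⟨J, hJ, fun j => x j / D j, D, a, fun j => div_pos (h1 j) (hDR j), hD, ?_, ?_, ?_, ?_, ?_, ?_⟩
  · intro k
    rw [← h3 k]
    refine Finset.sum_congr rfl fun j _ => ?_
    rw [haR]
    have := (hDR j).ne'
    field_simp
  · intro j e he
    have h6 := h4 j e (Or.inl he)
    have h7 : (∑ k, (e k : ℚ) * (a j k : ℚ)) = 0 := by
      have h8 : ∑ k, (e k : ℚ) * (a j k : ℚ) = D j * ∑ k, (e k : ℚ) * s j k := by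
        rw [Finset.mul_sum]
        exact Finset.sum_congr rfl fun k _ => by rw [ha]; ring
      rw [h8, h6, mul_zero]
    exact_mod_cast h7
  · intro j k
    rw [haR, mul_div_cancel_left₀ _ (hDR j).ne']
    exact (h5 j k).trans_le (min_le_left _ _)
  · intro j k hk
    have h6 := ha j k
    rw [hs0 j k hk, mul_zero] at h6
    exact_mod_cast h6
  · intro j k hk
    have h6 := ha j k
    have h7 : (0 : ℚ) < D j * s j k := mul_pos (by exact_mod_cast hD j) (hspos j k hk)
    rw [← h6] at h7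
    exact_mod_cast h7
  · rw [← h2]
    refine Finset.sum_congr rfl fun j _ => ?_
    have := (hDR j).ne'
    field_simp

end Pool.Agent.Q82.TQ
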