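import Pool.Agent.Q82.TQ.Rat
import Pool.Agent.Y167.Inv
import Pool.Agent.Y167.NS
import Pool.Agent.TH735.AQ.Mero
import Pool.Agent.TH128.SYZ.Psef

/-!
# Real combinations of Chern forms
-/

set_option autoImplicit false

namespace Pool.Agent.Q82.TQ

open Pool.Agent.W594.SYZ2 Pool.Agent.W594.SYZ2.TQ Pool.Agent.TH735.AQ Pool.Agent.Y167
open Pool.Agent.TH128.SYZ

variable {V : Type*} [NormedAddCommGroup V] [NormedSpace ℂ V] {Γ : Subgroup (V ≃ᵃ[ℂ] V)}
  {κ : Type*} [Fintype κ]

/-- A real linear combination of forms. -/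
noncomputable def comb (t : κ → ℝ) (G : κ → V → V → ℂ) (v w : V) : ℂ := ∑ k, (t k : ℂ) * G k v w

theorem comb_herm (t : κ → ℝ) {G : κ → V → V → ℂ} (hG : ∀ k, IsHermitian (G k)) :
    IsHermitian (comb t G) where
  add_left u v w := by
    simp only [comb]
    rw [← Finset.sum_add_distrib]
    exact Finset.sum_congr rfl fun k _ => by rw [(hG k).add_left, mul_add]
  smul_left a v w := by
    simp only [comb]
    rw [Finset.mul_sum]
    exact Finset.sum_congr rfl fun k _ => by rw [(hG k).smul_left]; ring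
  symm v w := by
    simp only [comb]
    rw [map_sum]
    exact Finset.sum_congr rfl fun k _ => by rw [(hG k).symm v w, map_mul, Complex.conj_ofReal]

theorem comb_re (t : κ → ℝ) (G : κ → V → V → ℂ) (v w : V) :
    (comb t G v w).re = ∑ k, t k * (G k v w).re := by
  rw [comb, Complex.re_sum]
  exact Finset.sum_congr rfl fun k _ => Complex.re_ofReal_mul _ _

theorem comb_im (t : κ → ℝ) (G : κ → V → V → ℂ) (v w : V) :
    (comb t G v w).im = ∑ k, t k * (G k v w).im := by
  rw [comb, Complex.im_sum]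
  exact Finset.sum_congr rfl fun k _ => Complex.im_ofReal_mul _ _

theorem comb_inv (t : κ → ℝ) {G : κ → V → V → ℂ}
    (hinv : ∀ k, ∀ γ ∈ Γ, ∀ v w, G k (γ.linear v) (γ.linear w) = G k v w)
    (γ : V ≃ᵃ[ℂ] V) (hγ : γ ∈ Γ) (v w : V) :
    comb t G (γ.linear v) (γ.linear w) = comb t G v w :=
  Finset.sum_congr rfl fun k _ => by rw [hinv k γ hγ]

/-- Vectors of an invariant subspace which are fixed by `NK` are parallel to the mirrors. -/
theorem mirrorFixed {K : Submodule ℂ V} (hK : ∀ γ ∈ Γ, ∀ v ∈ K, γ.linear v ∈ K) {x : V}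
    (hx : x ∈ KN Γ K) : MirrorFixed Γ x := by
  rintro γ hγ - ⟨ℓ, hℓ, c, hfix⟩
  obtain ⟨y, hy⟩ : ∃ y, ℓ y = c := by
    have h1 : ∃ v, ℓ v ≠ 0 := by
      by_contra hcon
      push Not at hcon
      exact hℓ (LinearMap.ext hcon)
    obtain ⟨v, hv⟩ := h1
    exact ⟨(c / ℓ v) • v, by rw [map_smul, smul_eq_mul, div_mul_cancel₀ _ hv]⟩
  have h0 : γ y = y := hfix y hy
  have hlin : ∀ w, ℓ w = 0 → γ.linear w = w := by
    intro w hw
    have h1 : γ (y + w) = y + w := hfix _ (by rw [map_add, hw, add_zero, hy])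
    rw [act_add, h0] at h1
    exact add_left_cancel h1
  by_cases hℓx : ℓ x = 0
  · exact hlin x hℓx
  · have hdec : ∀ v, γ.linear v - v = (ℓ v / ℓ x) • (γ.linear x - x) := by
      intro v
      have h1 := hlin (v - (ℓ v / ℓ x) • x) (by
        rw [map_sub, map_smul, smul_eq_mul, div_mul_cancel₀ _ hℓx, sub_self])
      rw [map_sub, map_smul] at h1
      rw [smul_sub]
      have h2 : γ.linear v = v - (ℓ v / ℓ x) • x + (ℓ v / ℓ x) • γ.linear x := by
        rw [← h1]
        abel
      rw [h2]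
      abel
    let g : Lin Γ := ⟨γ.linear, γ, hγ, rfl⟩
    have hgN : g ∈ NK Γ K := by
      intro v
      change γ.linear v - v ∈ K
      rw [hdec v]
      exact K.smul_mem _ (K.sub_mem (hK γ hγ x hx.1) hx.1)
    exact hx.2 g hgN

variable [FiniteDimensional ℂ V]

/-- The equations. -/
def eqs (G : κ → V → V → ℂ) (D : V → V) (S : AddSubgroup V) : Set (κ → ℤ) :=
  {e | ∃ b ∈ S, ∃ c ∈ S, ∀ k, (G k (D b) c).im = e k}

theorem nearby (hΓ : IsTorusQuotient Γ) {G : κ → V → V → ℂ} (hG : ∀ k, IsHermitian (G k))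
    (hinv : ∀ k, ∀ γ ∈ Γ, ∀ v w, G k (γ.linear v) (γ.linear w) = G k v w)
    (hint : ∀ k, ∀ b ∈ latt Γ, ∀ c ∈ latt Γ, ∃ n : ℤ, (G k b c).im = n)
    {t : κ → ℝ} (hn : IsNefForm (comb t G))
    (hKN : ∀ x ∈ KN Γ (ker (comb_herm t hG)), ∀ k, t k ≠ 0 → ∀ w, G k x w = 0) :
    ∃ E : Set (κ → ℤ), (∀ e ∈ E, ∑ k, (e k : ℝ) * t k = 0) ∧ ∃ ε > 0, ∀ t' : κ → ℝ,
      (∀ k, |t' k - t k| < ε) → (∀ k, t k = 0 → t' k = 0) →
      (∀ e ∈ E, ∑ k, (e k : ℝ) * t' k = 0) →
      IsNefForm (comb t' G) ∧ ∀ v, (∀ w, comb t' G v w = 0) ↔ ∀ w, comb t G v w = 0 := by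
  classical
  have := finite_Lin hΓ
  have : Fintype (Lin Γ) := Fintype.ofFinite _
  have hH := comb_herm t hG
  set K := ker (comb_herm t hG) with hKdef
  have hKinv : ∀ γ ∈ Γ, ∀ v ∈ K, γ.linear v ∈ K := by
    intro γ hγ v hv w
    have h1 := comb_inv t hinv γ hγ v (γ.linear.symm w)
    rw [LinearEquiv.apply_symm_apply] at h1
    rw [h1]
    exact hv _
  let Ns : Finset (Lin Γ) := Finset.univ.filter (· ∈ NK Γ K)
  have hNs : 1 ≤ Ns.card := Finset.card_pos.2 ⟨1, by
    rw [Finset.mem_filter]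
    exact ⟨Finset.mem_univ _, (NK Γ K).one_mem⟩⟩
  let S : V →ₗ[ℂ] V := ∑ g ∈ Ns, (g.1 : V →ₗ[ℂ] V)
  have hS : ∀ v, S v = ∑ g ∈ Ns, g.1 v := by
    intro v
    simp only [S, LinearMap.sum_apply]
    rfl
  let D : V →ₗ[ℂ] V := (Ns.card : ℂ) • LinearMap.id - S
  have hD : ∀ v, D v = (Ns.card : ℂ) • v - S v := fun v => rfl
  have hDK : ∀ v, D v ∈ K := by
    intro v
    have h1 : D v = ∑ g ∈ Ns, (v - g.1 v) := by
      rw [hD, hS, Finset.sum_sub_distrib, Finset.sum_const, Nat.cast_smul_eq_nsmul]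
    rw [h1]
    refine K.sum_mem fun g hg => ?_
    rw [← neg_sub]
    exact K.neg_mem ((Finset.mem_filter.1 hg).2 v)
  have hSK : ∀ v ∈ K, S v ∈ KN Γ K := by
    intro v hv
    rw [hS]
    refine ⟨K.sum_mem fun g _ => ?_, fun g hg => sum_fixed K v g hg⟩
    obtain ⟨g, γ, hγ, rfl⟩ := g
    exact hKinv γ hγ v hv
  have hSl : ∀ b ∈ latt Γ, S b ∈ latt Γ := by
    intro b hb
    rw [hS]
    refine (latt Γ).sum_mem fun g _ => ?_
    obtain ⟨g, γ, hγ, rfl⟩ := g
    exact latt_inv γ hγ hb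
  have hDl : ∀ b ∈ latt Γ, D b ∈ latt Γ := by
    intro b hb
    rw [hD, Nat.cast_smul_eq_nsmul]
    exact (latt Γ).sub_mem ((latt Γ).nsmul_mem hb _) (hSl b hb)
  -- the complement
  obtain ⟨T, hT⟩ := K.exists_isCompl
  have hTpos : ∀ v ∈ T, v ≠ 0 → 0 < (comb t G v v).re := by
    intro v hv hv0
    refine lt_of_le_of_ne (hn v) fun h => hv0 ?_
    have h1 : v ∈ K := h_isotropic hH hn v h.symm
    have h2 : v ∈ K ⊓ T := ⟨h1, hv⟩
    rwa [hT.inf_eq_bot, Submodule.mem_bot] at h2
  obtain ⟨c, hc, hcT⟩ := coercive hH T hTpos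
  choose M hM0 hM using fun k => herm_bound (hG k)
  have hMs : 0 ≤ ∑ k, M k := Finset.sum_nonneg fun k _ => hM0 k
  refine ⟨eqs G D (latt Γ), ?_, c / (1 + ∑ k, M k), div_pos hc (by linarith), ?_⟩
  · rintro e ⟨b, hb, c, hc, he⟩
    have h1 : (comb t G (D b) c).im = 0 := by
      rw [hDK b c, Complex.zero_im]
    rw [comb_im] at h1
    rw [← h1]
    exact Finset.sum_congr rfl fun k _ => by rw [he k, mul_comm]
  · intro t' ht' ht0 hE
    have hH' := comb_herm t' hG
    have hE1 : ∀ b ∈ latt Γ, ∀ c ∈ latt Γ, (comb t' G (D b) c).im = 0 := by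
      intro b hb c hc
      choose e he using fun k => hint k (D b) (hDl b hb) c hc
      rw [comb_im, ← hE e ⟨b, hb, c, hc, he⟩]
      exact Finset.sum_congr rfl fun k _ => by rw [he k, mul_comm]
    have hE2 : ∀ u, ∀ c ∈ latt Γ, (comb t' G (D u) c).im = 0 := by
      intro u c hc
      have hu : u ∈ Submodule.span ℝ (latt Γ : Set V) := by rw [hΓ.span_top]; trivial
      induction hu using Submodule.span_induction with
      | mem x hx => exact hE1 x hx c hc
      | zero => rw [map_zero, h_zero_left hH', Complex.zero_im]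
      | add x y _ _ hx hy => rw [map_add, hH'.add_left, Complex.add_im, hx, hy, add_zero]
      | smul r x _ hx =>
        have h1 : r • x = (r : ℂ) • x := (Complex.coe_smul r x).symm
        rw [h1, map_smul, hH'.smul_left, Complex.im_ofReal_mul, hx, mul_zero]
    have hE3 : ∀ u w, (comb t' G (D u) w).im = 0 := by
      intro u w
      have hw : w ∈ Submodule.span ℝ (latt Γ : Set V) := by rw [hΓ.span_top]; trivial
      induction hw using Submodule.span_induction with
      | mem x hx => exact hE2 u x hx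
      | zero => rw [h_zero_right hH', Complex.zero_im]
      | add x y _ _ hx hy => rw [h_add_right hH', Complex.add_im, hx, hy, add_zero]
      | smul r x _ hx =>
        have h1 : r • x = (r : ℂ) • x := (Complex.coe_smul r x).symm
        rw [h1, h_smul_right hH', Complex.conj_ofReal, Complex.im_ofReal_mul, hx, mul_zero]
    have hE4 : ∀ u w, comb t' G (D u) w = 0 := by
      intro u w
      apply Complex.ext
      · have h2 := hE3 u (Complex.I • w)
        rw [h_smul_right hH'] at h2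
        simpa using h2
      · exact hE3 u w
    have hKer : ∀ x ∈ K, ∀ w, comb t' G x w = 0 := by
      intro x hx w
      have h1 : (Ns.card : ℂ) • x = S x + D x := by
        rw [hD]
        abel
      have h2 : comb t' G (S x) w = 0 := by
        refine Finset.sum_eq_zero fun k _ => ?_
        by_cases hk : t k = 0
        · rw [ht0 k hk, Complex.ofReal_zero, zero_mul]
        · rw [hKN (S x) (hSK x hx) k hk w, mul_zero]
      have h3 : (Ns.card : ℂ) * comb t' G x w = 0 := by
        rw [← hH'.smul_left, h1, hH'.add_left, h2, hE4, add_zero]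
      have h4 : (Ns.card : ℂ) ≠ 0 := by
        have : Ns.card ≠ 0 := by omega
        exact_mod_cast this
      exact (mul_eq_zero.1 h3).resolve_left h4
    have hpos : ∀ w ∈ T, w ≠ 0 → 0 < (comb t' G w w).re := by
      intro w hw hw0
      have hwn : 0 < ‖w‖ ^ 2 := by
        have := norm_pos_iff.2 hw0
        positivity
      have h1 := hcT w hw
      have h2 : (comb t G w w).re - (comb t' G w w).re
          = ∑ k, (t k - t' k) * (G k w w).re := by
        rw [comb_re, comb_re, ← Finset.sum_sub_distrib]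
        exact Finset.sum_congr rfl fun k _ => by ring
      have h3 : ∑ k, (t k - t' k) * (G k w w).re
          ≤ ∑ k, (c / (1 + ∑ k, M k)) * (M k * ‖w‖ ^ 2) := by
        refine Finset.sum_le_sum fun k _ => ?_
        refine (le_abs_self _).trans ?_
        rw [abs_mul]
        have h4 : |(G k w w).re| ≤ M k * ‖w‖ ^ 2 :=
          (Complex.abs_re_le_norm _).trans ((hM k w w).trans (le_of_eq (by ring)))
        have h5 : |t k - t' k| ≤ c / (1 + ∑ k, M k) := by
          rw [abs_sub_comm]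
          exact (ht' k).le
        exact mul_le_mul h5 h4 (abs_nonneg _) (div_pos hc (by linarith)).le
      have h6 : ∑ k, (c / (1 + ∑ k, M k)) * (M k * ‖w‖ ^ 2) < c * ‖w‖ ^ 2 := by
        rw [← Finset.mul_sum, ← Finset.sum_mul]
        have h7 : (c / (1 + ∑ k, M k)) * ((∑ k, M k) * ‖w‖ ^ 2)
            = c * ‖w‖ ^ 2 * ((∑ k, M k) / (1 + ∑ k, M k)) := by
          ring
        rw [h7]
        have h8 : (∑ k, M k) / (1 + ∑ k, M k) < 1 := by
          rw [div_lt_one (by linarith)]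
          linarith
        have h9 : 0 < c * ‖w‖ ^ 2 := mul_pos hc hwn
        nlinarith
      linarith
    have hdec : ∀ v, ∃ x ∈ K, ∃ y ∈ T, x + y = v := by
      intro v
      have h1 : v ∈ K ⊔ T := by rw [hT.sup_eq_top]; trivial
      exact Submodule.mem_sup.1 h1
    have hval : ∀ x ∈ K, ∀ y, (comb t' G (x + y) (x + y)).re = (comb t' G y y).re := by
      intro x hx y
      rw [h_diag_add hH', hKer x hx, hKer x hx]
      simp
    constructor
    · intro v
      obtain ⟨x, hx, y, hy, rfl⟩ := hdec v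
      rw [hval x hx]
      by_cases hy0 : y = 0
      · rw [hy0, h_zero_left hH', Complex.zero_re]
      · exact (hpos y hy hy0).le
    · intro v
      constructor
      · intro h
        obtain ⟨x, hx, y, hy, rfl⟩ := hdec v
        have h1 : (comb t' G y y).re = 0 := by
          rw [← hval x hx, h, Complex.zero_re]
        have h2 : y = 0 := by
          by_contra hy0
          exact (hpos y hy hy0).ne' h1
        rw [h2, add_zero]
        exact hx
      · intro h
        exact hKer v h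

/-- Decomposition of the real class into nef integral classes with the same kernel. -/
theorem decomp {κ : Type} [Fintype κ] (hΓ : IsTorusQuotient Γ) {G : κ → V → V → ℂ}
    (hG : ∀ k, IsHermitian (G k))
    (hinv : ∀ k, ∀ γ ∈ Γ, ∀ v w, G k (γ.linear v) (γ.linear w) = G k v w)
    (hint : ∀ k, ∀ b ∈ latt Γ, ∀ c ∈ latt Γ, ∃ n : ℤ, (G k b c).im = n)
    {t : κ → ℝ} (ht : ∀ k, 0 ≤ t k) (hn : IsNefForm (comb t G))
    (hKN : ∀ x ∈ KN Γ (ker (comb_herm t hG)), ∀ k, t k ≠ 0 → ∀ w, G k x w = 0) :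
    ∃ (J : Type) (_ : Fintype J) (x : J → ℝ) (a : J → κ → ℕ), (∀ j, 0 < x j) ∧
      (∀ k, ∑ j, x j * (a j k : ℝ) = t k) ∧ (∀ j k, 0 < t k → 0 < a j k) ∧
      ∀ j, IsNefForm (comb (fun k => (a j k : ℝ)) G) ∧
        ∀ v, (∀ w, comb (fun k => (a j k : ℝ)) G v w = 0) ↔ ∀ w, comb t G v w = 0 := by
  obtain ⟨E, hE, ε, hε, hnear⟩ := nearby hΓ hG hinv hint hn hKN
  obtain ⟨J, hJ, x, D, a, h1, h2, h3, h4, h5, h6, h7, -⟩ := exists_nat_decomp t ht E hE hε
  refine ⟨J, hJ, x, a, h1, h3, h7, fun j => ?_⟩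
  have hD : (0 : ℝ) < D j := by exact_mod_cast h2 j
  obtain ⟨h8, h9⟩ := hnear (fun k => (a j k : ℝ) / D j) (h5 j) (fun k hk => by
      rw [h6 j k hk, Nat.cast_zero, zero_div]) (fun e he => by
      have h10 := h4 j e he
      have h11 : (∑ k, (e k : ℝ) * (a j k : ℝ)) = 0 := by exact_mod_cast h10
      have h12 : ∑ k, (e k : ℝ) * ((a j k : ℝ) / D j) = (∑ k, (e k : ℝ) * (a j k : ℝ)) / D j := by
        rw [Finset.sum_div]
        exact Finset.sum_congr rfl fun k _ => by ring
      rw [h12, h11, zero_div])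
  have hscale : ∀ v w, comb (fun k => (a j k : ℝ)) G v w
      = ((D j : ℝ) : ℂ) * comb (fun k => (a j k : ℝ) / D j) G v w := by
    intro v w
    simp only [comb]
    rw [Finset.mul_sum]
    refine Finset.sum_congr rfl fun k _ => ?_
    have : ((D j : ℝ) : ℂ) ≠ 0 := by exact_mod_cast hD.ne'
    push_cast at this ⊢
    field_simp
  constructor
  · intro v
    rw [hscale, Complex.re_ofReal_mul]
    exact mul_nonneg hD.le (h8 v)
  · intro v
    rw [← h9 v]
    refine forall_congr' fun w => ?_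
    rw [hscale, mul_eq_zero]
    exact ⟨fun h => h.resolve_left (by exact_mod_cast hD.ne'), Or.inr⟩

end Pool.Agent.Q82.TQ
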